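import Pool.Agent.T6.H9.HE.Glob

/-!
# Assembly, even degree

Owner helper9.
-/

set_option autoImplicit false
set_option linter.unusedSectionVars false
set_option linter.style.haveILetI false
set_option linter.unusedVariables false

open Filter Topology Polynomial NumberField IsDedekindDomain

namespace Pool.Agent.T6.H9.HE

open Pool.Agent.T6.H9 Pool.Agent.T6.H9.MV Pool.Agent.T6.H9.HY Pool.Agent.T6.H9.TensorL
open Pool.Agent.T6.H9.TP Pool.Agent.H341R2.Sharp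

lemma one_sub_ne {z : ℂ} (h : ‖z‖ < 1) : 1 - z ≠ 0 := by
  intro h1
  have h2 : z = 1 := (sub_eq_zero.1 h1).symm
  rw [h2, norm_one] at h
  exact lt_irrefl _ h

lemma T_sqf {F : Type} [Field F] [Fintype F] [DecidableEq F] (hF : ringChar F ≠ 2) {f : F[X]}
    (hf : f.Monic) (hd : 1 ≤ f.natDegree) (hs : Squarefree f) {j : ℕ} (hj : 1 ≤ j) :
    ‖(T f j : ℂ)‖ ≤ (5 * f.natDegree : ℝ) * (√(Fintype.card F)) ^ j :=
  T_nonsq hF hf hd (fun h => not_sqf_of_sq hf hd h hs) hj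

section

variable {K : Type} [Field K] [NumberField K] {m M r : ℕ} {d : Fin r → ℕ}

lemma sqrt_qv (v : HeightOneSpectrum (𝓞 K)) : 1 ≤ √(qv v : ℝ) := by
  rw [Real.one_le_sqrt]
  exact qv_one_le v

lemma z_small {θ : ℝ} {a : ℂ} (v : HeightOneSpectrum (𝓞 K)) (ha : ‖a‖ ≤ (qv v : ℝ) ^ θ) {s : ℂ}
    (hs : cT M θ ≤ s.re) : ‖a * (qv v : ℂ) ^ (-s - 1 / 2)‖ < 1 := by
  have h1 := kapT_lt_one (m := M) v ha hs
  have h2 := sqrt_qv v
  have h3 := norm_nonneg (a * (qv v : ℂ) ^ (-s - 1 / 2))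
  nlinarith

lemma locE_ne_zero {δ : 𝓞 K} {θ : ℝ} {e : ℕ} {A : HeightOneSpectrum (𝓞 K) → Fin e → ℂ}
    (hA : ∀ v i, ‖A v i‖ ≤ (qv v : ℝ) ^ θ)
    (v : HeightOneSpectrum (𝓞 K)) (t : Fin m → kv v) {s : ℂ} (hs : cT M θ ≤ s.re) :
    locE δ A v t s ≠ 0 := by
  unfold locE
  split_ifs
  · exact one_ne_zero
  · exact Finset.prod_ne_zero_iff.2 fun i _ => mul_ne_zero (Complex.exp_ne_zero _)
      (one_sub_ne (z_small (M := M) v (tw_norm δ hA v i) hs))
  · exact one_ne_zero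

lemma diff_locE (hm : 1 ≤ m) {δ : 𝓞 K} {θ : ℝ} {e : ℕ}
    {A : HeightOneSpectrum (𝓞 K) → Fin e → ℂ}
    (hA : ∀ v i, ‖A v i‖ ≤ (qv v : ℝ) ^ θ)
    (v : HeightOneSpectrum (𝓞 K)) (t : Fin m → kv v) (k : Fin r)
    {x : Fin r → ℂ} (hx : cT M θ ≤ (x k).re) :
    DifferentiableAt ℂ (fun s : Fin r → ℂ => locE δ A v t (s k)) x := by
  unfold locE
  split_ifs with h2 h3
  · exact differentiableAt_const _
  · refine diff_prod _ fun i _ => ?_
    have h1 : DifferentiableAt ℂ (fun s : Fin r → ℂ =>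
        tw δ A v i * (qv v : ℂ) ^ (-(s k) - 1 / 2)) x :=
      (diff_cpow v _ (by fun_prop)).const_mul _
    have h4 : DifferentiableAt ℂ (EF (mkP m t)) (tw δ A v i * (qv v : ℂ) ^ (-(x k) - 1 / 2)) := by
      have hq : (0 : ℝ) < Fintype.card (kv v) := by exact_mod_cast Fintype.card_pos
      refine EF_dif (C := 5 * (mkP m t).natDegree) (by positivity) (Real.sqrt_pos.2 hq)
        (fun j hj => T_sqf (ringChar_kv (two_notMem h2)) (mkP_monic _ _)
          (by rw [mkP_natDegree]; exact hm) h3 hj) ?_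
      rw [card_kv']
      exact kapT_lt_one (m := M) v (tw_norm δ hA v i) hx
    exact (DifferentiableAt.comp (g := EF (mkP m t)) x h4 h1).mul (h1.const_sub 1)
  · exact differentiableAt_const _

/-- `ZT` is holomorphic -/
lemma diff_ZT' {θ : ℝ} {A : ∀ k : Fin r, HeightOneSpectrum (𝓞 K) → Fin (d k) → ℂ}
    (hA : ∀ k v i, ‖A k v i‖ ≤ (qv v : ℝ) ^ θ) (n : Fin r → ℤ) (v : HeightOneSpectrum (𝓞 K))
    {x : Fin r → ℂ} (hx : ∀ k, cT M θ ≤ (x k).re) :
    DifferentiableAt ℂ (fun s => ZT A n s v) x := by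
  have hne : ∀ k l i j, 1 - xT A x v k i * xT A x v l j ≠ 0 := by
    intro k l i j h
    have h1 := xx_lt (m := M) hA hx (by unfold cT; exact le_rfl) v k l i j
    have h2 : xT A x v k i * xT A x v l j = 1 := (sub_eq_zero.1 h).symm
    rw [h2, norm_one] at h1
    have := rhoH_lt_one M
    linarith
  have hdx : ∀ k l i j, DifferentiableAt ℂ (fun s => 1 - xT A s v k i * xT A s v l j) x :=
    fun k l i j => ((diff_xT A v k i x).mul (diff_xT A v l j x)).const_sub 1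
  have hlam : ∀ k, DifferentiableAt ℂ (fun s => lam2 (xT A s v k) 1) x := by
    intro k
    unfold lam2
    refine diff_prod _ fun p _ => ?_
    simp only [mul_one]
    exact hdx k k p.1 p.2
  have hlam0 : ∀ k, lam2 (xT A x v k) 1 ≠ 0 := by
    intro k
    unfold lam2
    refine Finset.prod_ne_zero_iff.2 fun p _ => ?_
    rw [mul_one]
    exact hne k k p.1 p.2
  have hsym : ∀ k, DifferentiableAt ℂ (fun s => sym2 (xT A s v k) 1) x := by
    intro k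
    unfold sym2
    refine diff_prod _ fun p _ => ?_
    simp only [mul_one]
    exact hdx k k p.1 p.2
  have hsym0 : ∀ k, sym2 (xT A x v k) 1 ≠ 0 := by
    intro k
    unfold sym2
    refine Finset.prod_ne_zero_iff.2 fun p _ => ?_
    rw [mul_one]
    exact hne k k p.1 p.2
  have hrs : ∀ k l, DifferentiableAt ℂ (fun s => rs (xT A s v k) (xT A s v l) 1) x := by
    intro k l
    unfold rs
    refine diff_prod _ fun i _ => diff_prod _ fun j _ => ?_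
    simp only [mul_one]
    exact hdx k l i j
  have hrs0 : ∀ k l, rs (xT A x v k) (xT A x v l) 1 ≠ 0 := by
    intro k l
    unfold rs
    refine Finset.prod_ne_zero_iff.2 fun i _ => Finset.prod_ne_zero_iff.2 fun j _ => ?_
    rw [mul_one]
    exact hne k l i j
  unfold ZT
  refine DifferentiableAt.mul (diff_prod _ fun k _ => ?_) (diff_prod _ fun p _ => ?_)
  · exact ((hlam k).zpow (Or.inl (hlam0 k))).mul ((hsym k).zpow (Or.inl (hsym0 k)))
  · exact (hrs p.1 p.2).zpow (Or.inl (hrs0 p.1 p.2))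

lemma LEf_ne {δ : 𝓞 K} {θ : ℝ} {e : ℕ} {A : HeightOneSpectrum (𝓞 K) → Fin e → ℂ}
    (hA : ∀ v i, ‖A v i‖ ≤ (qv v : ℝ) ^ θ) (v : HeightOneSpectrum (𝓞 K)) {s : ℂ}
    (hs : cT M θ ≤ s.re) :
    ∏ i, (1 - tw δ A v i * (qv v : ℂ) ^ (-s - 1 / 2)) ≠ 0 :=
  Finset.prod_ne_zero_iff.2 fun i _ => one_sub_ne (z_small (M := M) v (tw_norm δ hA v i) hs)

lemma LE_ne {δ : 𝓞 K} {θ : ℝ} {A : ∀ k : Fin r, HeightOneSpectrum (𝓞 K) → Fin (d k) → ℂ}
    (hA : ∀ k v i, ‖A k v i‖ ≤ (qv v : ℝ) ^ θ) (n : Fin r → ℤ) (v : HeightOneSpectrum (𝓞 K))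
    {s : Fin r → ℂ} (hs : ∀ k, cT M θ ≤ (s k).re) : LE δ A n s v ≠ 0 :=
  Finset.prod_ne_zero_iff.2 fun k _ => zpow_ne_zero _ (LEf_ne (M := M) (hA k) v (hs k))

lemma diff_LEf {δ : 𝓞 K} {e : ℕ} (A : HeightOneSpectrum (𝓞 K) → Fin e → ℂ)
    (v : HeightOneSpectrum (𝓞 K)) (k : Fin r) (x : Fin r → ℂ) :
    DifferentiableAt ℂ (fun s : Fin r → ℂ =>
      ∏ i, (1 - tw δ A v i * (qv v : ℂ) ^ (-(s k) - 1 / 2))) x := by
  refine diff_prod _ fun i _ => ?_
  exact ((diff_cpow v _ (by fun_prop)).const_mul _).const_sub 1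

lemma diff_LE {δ : 𝓞 K} {θ : ℝ} {A : ∀ k : Fin r, HeightOneSpectrum (𝓞 K) → Fin (d k) → ℂ}
    (hA : ∀ k v i, ‖A k v i‖ ≤ (qv v : ℝ) ^ θ) (n : Fin r → ℤ) (v : HeightOneSpectrum (𝓞 K))
    {x : Fin r → ℂ} (hx : ∀ k, cT M θ ≤ (x k).re) :
    DifferentiableAt ℂ (fun s => LE δ A n s v) x := by
  unfold LE
  refine diff_prod _ fun k _ => ?_
  exact (diff_LEf (A k) v k x).zpow (Or.inl (LEf_ne (M := M) (hA k) v (hx k)))

/-- the correction factors are holomorphic -/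
lemma diff_hlocE (hm : 1 ≤ m) {δ : 𝓞 K} {θ : ℝ}
    {A : ∀ k : Fin r, HeightOneSpectrum (𝓞 K) → Fin (d k) → ℂ}
    (hA : ∀ k v i, ‖A k v i‖ ≤ (qv v : ℝ) ^ θ) (n : Fin r → ℤ) (v : HeightOneSpectrum (𝓞 K))
    {x : Fin r → ℂ} (hx : ∀ k, cT M θ ≤ (x k).re) :
    DifferentiableAt ℂ (fun s => hlocE m δ A n s v) x := by
  have h1 : DifferentiableAt ℂ (fun s => fmean (glE m δ A n s v)) x := by
    have h2 : (fun s : Fin r → ℂ => fmean (glE m δ A n s v)) =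
        fun s => (∑ t, glE m δ A n s v t) / (Fintype.card (Fin m → kv v) : ℂ) := by
      funext s
      rw [fmean_eq]
    rw [h2]
    refine diff_div (DifferentiableAt.fun_sum fun t _ => ?_) _
    unfold glE
    refine diff_prod _ fun k _ => ?_
    exact (diff_locE (M := M) hm (hA k) v t k (hx k)).zpow
      (Or.inl (locE_ne_zero (M := M) (hA k) v t (hx k)))
  unfold hlocE
  exact h1.mul ((diff_ZT' (M := M) hA n v hx).mul (diff_LE (M := M) hA n v hx))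

/-- the correction function -/
noncomputable def HfE (m : ℕ) (δ : 𝓞 K)
    (A : ∀ k : Fin r, HeightOneSpectrum (𝓞 K) → Fin (d k) → ℂ)
    (n : Fin r → ℤ) (s : Fin r → ℂ) : ℂ :=
  ∏' v : HeightOneSpectrum (𝓞 K), hlocE m δ A n s v

theorem differentiableOn_HfE {g : ℕ} (hg : 1 ≤ g) {δ : 𝓞 K} (hδ0 : δ ≠ 0) {θ : ℝ}
    {A : ∀ k : Fin r, HeightOneSpectrum (𝓞 K) → Fin (d k) → ℂ}
    (hA : ∀ k v i, ‖A k v i‖ ≤ (qv v : ℝ) ^ θ) (n : Fin r → ℤ) :
    DifferentiableOn ℂ (HfE (2 * (g + 1)) δ A n) (Om r (cT (2 * g + 1) θ)) := by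
  intro x hx
  obtain ⟨ε, hε, hxε⟩ := exists_delta hx
  obtain ⟨β, hβ, hb⟩ := hlocE_bound (K := K) hg hδ0 θ n hA hε
  have h1 : TendstoUniformlyOn (fun (D : Finset (HeightOneSpectrum (𝓞 K))) s =>
      ∏ v ∈ D, hlocE (2 * (g + 1)) δ A n s v) (HfE (2 * (g + 1)) δ A n) atTop
      (Om r (cT (2 * g + 1) θ + ε)) :=
    tendstoUniformlyOn_prod hβ fun v s hs => hb s hs v
  have h2 := differentiableOn_of_tendstoUniformlyOn (U := Om r (cT (2 * g + 1) θ + ε))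
    (V := Om r (cT (2 * g + 1) θ + ε + ε)) hε (isOpen_Om _ _) (fun y hy => ball_Om hy) (fun D => by
      intro y hy
      have hy' : ∀ k, cT (2 * g + 1) θ ≤ (y k).re := fun k => by linarith [hy k]
      exact (diff_prod D fun v _ => diff_hlocE (M := 2 * g + 1) (by omega) hA n v
        hy').differentiableWithinAt) h1
  exact ((h2 x hxε).differentiableAt ((isOpen_Om _ _).mem_nhds hxε)).differentiableWithinAt

/-! ### the exponential form -/

lemma prod_EE {δ : 𝓞 K} {v : HeightOneSpectrum (𝓞 K)} (h2 : 2 * δ ∉ v.asIdeal) (hm : 1 ≤ m)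
    (t : Fin m → kv v) (hsq : Squarefree (mkP m t)) {e : ℕ} (a : Fin e → ℂ) (u : ℂ)
    (hu : ∀ i, √(qv v : ℝ) * ‖a i * u‖ < 1) :
    ∏ i, (EF (mkP m t) (a i * u) * (1 - a i * u)) =
      Complex.exp (∑' j : ℕ, (∑ i, a i ^ (j + 1)) *
      (-((T (mkP m t) (j + 1) : ℂ) + 1)) * u ^ (j + 1) / ((j : ℂ) + 1)) := by
  have hF := ringChar_kv (two_notMem h2)
  have hd : 1 ≤ (mkP m t).natDegree := by rw [mkP_natDegree]; exact hm
  have hT := fun j hj => T_sqf hF (mkP_monic m t) hd hsq (j := j) hj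
  have hs1 : 1 ≤ √(Fintype.card (kv v) : ℝ) := by
    rw [card_kv']
    exact sqrt_qv v
  have hT2 : ∀ j, 1 ≤ j → ‖-((T (mkP m t) j : ℂ) + 1)‖ ≤
      (5 * (mkP m t).natDegree + 1 : ℝ) * (√(Fintype.card (kv v) : ℝ)) ^ j := by
    intro j hj
    rw [norm_neg]
    refine (norm_add_le _ _).trans ?_
    rw [norm_one, add_mul, one_mul]
    exact add_le_add (hT j hj) (one_le_pow₀ hs1)
  have hsum : ∀ i ∈ (Finset.univ : Finset (Fin e)), Summable fun j : ℕ =>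
      -((T (mkP m t) (j + 1) : ℂ) + 1) * (a i * u) ^ (j + 1) / ((j : ℂ) + 1) := by
    intro i _
    exact LS_summable (t := fun m' => -((T (mkP m t) m' : ℂ) + 1))
      (C := 5 * (mkP m t).natDegree + 1)
      (s := √(Fintype.card (kv v) : ℝ)) (Real.sqrt_nonneg _) (by positivity) hT2
      (u := a i * u) (by rw [card_kv']; exact hu i)
  have h1 : ∀ i ∈ (Finset.univ : Finset (Fin e)), EF (mkP m t) (a i * u) * (1 - a i * u) =
      Complex.exp (LS (fun m' => -((T (mkP m t) m' : ℂ) + 1)) (a i * u)) := by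
    intro i _
    exact EF_one_sub (C := 5 * (mkP m t).natDegree) (by positivity) hs1 hT
      (by rw [card_kv']; exact hu i)
  rw [Finset.prod_congr rfl h1]
  unfold LS
  rw [← Complex.exp_sum, ← Summable.tsum_finsetSum hsum]
  congr 1
  refine tsum_congr fun j => ?_
  have h3 : ∀ i : Fin e, -((T (mkP m t) (j + 1) : ℂ) + 1) * (a i * u) ^ (j + 1) / ((j : ℂ) + 1) =
      a i ^ (j + 1) * (-((T (mkP m t) (j + 1) : ℂ) + 1) * u ^ (j + 1) / ((j : ℂ) + 1)) := by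
    intro i
    rw [mul_pow]
    ring
  simp only [h3]
  rw [← Finset.sum_mul]
  ring

/-! ### real points -/

lemma qpow_real (v : HeightOneSpectrum (𝓞 K)) {s : ℂ} (hs0 : s.im = 0) :
    (qv v : ℂ) ^ (-s - 1 / 2) = (((qv v : ℝ) ^ (-s.re - 1 / 2) : ℝ) : ℂ) := by
  have h0 : (0 : ℝ) ≤ qv v := (qv_pos v).le
  rw [Complex.ofReal_cpow h0]
  have h1 : ((-s.re - 1 / 2 : ℝ) : ℂ) = -s - 1 / 2 := by
    apply Complex.ext
    · simp
    · simp [hs0]
  rw [h1]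
  push_cast
  rfl

lemma locE_real (hm : 1 ≤ m) {δ : 𝓞 K} {θ : ℝ} {e : ℕ}
    {A : HeightOneSpectrum (𝓞 K) → Fin e → ℂ}
    (hA : ∀ v i, ‖A v i‖ ≤ (qv v : ℝ) ^ θ)
    (hreal : ∀ v j, (∑ i, A v i ^ (j + 1)).im = 0)
    (v : HeightOneSpectrum (𝓞 K)) (t : Fin m → kv v) {s : ℂ} (hs : cT M θ ≤ s.re)
    (hs0 : s.im = 0) : ∃ y : ℝ, 0 < y ∧ locE δ A v t s = y := by
  unfold locE
  split_ifs with h2 h3
  · exact ⟨1, one_pos, by simp⟩
  · rw [prod_EE h2 hm t h3 (tw δ A v) ((qv v : ℂ) ^ (-s - 1 / 2)) fun i =>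
      kapT_lt_one (m := M) v (tw_norm δ hA v i) hs]
    have h4 : ∀ j, (∑ i, tw δ A v i ^ (j + 1)) =
        (((∑ i, tw δ A v i ^ (j + 1)).re : ℝ) : ℂ) := by
      intro j
      have h5 : (∑ i, tw δ A v i ^ (j + 1)) = EvenL.chi δ v ^ (j + 1) * ∑ i, A v i ^ (j + 1) := by
        unfold tw
        rw [Finset.mul_sum]
        refine Finset.sum_congr rfl fun i _ => ?_
        rw [mul_pow]
      have h6 : ∃ c : ℝ, EvenL.chi δ v = c := by
        unfold EvenL.chi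
        split_ifs
        · exact ⟨0, by simp⟩
        · exact ⟨1, by simp⟩
        · exact ⟨-1, by simp⟩
      obtain ⟨c, hc⟩ := h6
      have h7 : (∑ i, A v i ^ (j + 1)) = (((∑ i, A v i ^ (j + 1)).re : ℝ) : ℂ) := by
        apply Complex.ext
        · simp
        · rw [hreal v j]
          simp
      rw [h5, hc, h7, ← Complex.ofReal_pow, ← Complex.ofReal_mul, Complex.ofReal_re]
    refine ⟨Real.exp (∑' j : ℕ, (∑ i, tw δ A v i ^ (j + 1)).re *
      (-((T (mkP m t) (j + 1) : ℝ) + 1)) *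
      ((qv v : ℝ) ^ (-s.re - 1 / 2)) ^ (j + 1) / ((j : ℝ) + 1)), Real.exp_pos _, ?_⟩
    rw [qpow_real v hs0]
    rw [Complex.ofReal_exp, Complex.ofReal_tsum]
    congr 1
    refine tsum_congr fun j => ?_
    rw [h4 j]
    push_cast
    simp
  · exact ⟨1, one_pos, by simp⟩

lemma hlocE_ne_zero (hm : 1 ≤ m) {δ : 𝓞 K} {θ : ℝ}
    {A : ∀ k : Fin r, HeightOneSpectrum (𝓞 K) → Fin (d k) → ℂ}
    (hA : ∀ k v i, ‖A k v i‖ ≤ (qv v : ℝ) ^ θ)
    (hreal : ∀ k v j, (∑ i, A k v i ^ (j + 1)).im = 0)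
    (n : Fin r → ℤ) (v : HeightOneSpectrum (𝓞 K)) {s : Fin r → ℂ}
    (hs : ∀ k, cT M θ ≤ (s k).re) (hs0 : ∀ k, (s k).im = 0) : hlocE m δ A n s v ≠ 0 := by
  classical
  have h1 : ∀ t : Fin m → kv v, ∃ y : ℝ, 0 < y ∧ glE m δ A n s v t = y := by
    intro t
    choose y hy0 hy using fun k => locE_real (M := M) hm (δ := δ) (hA k) (hreal k) v t (hs k)
      (hs0 k)
    refine ⟨∏ k, y k ^ n k, Finset.prod_pos fun k _ => zpow_pos (hy0 k) _, ?_⟩
    unfold glE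
    push_cast
    refine Finset.prod_congr rfl fun k _ => ?_
    rw [hy k]
  choose y hy0 hy using h1
  have hc : (0 : ℝ) < Fintype.card (Fin m → kv v) := by exact_mod_cast Fintype.card_pos
  have h2 : fmean (glE m δ A n s v) =
      (((∑ t, y t) / (Fintype.card (Fin m → kv v) : ℝ) : ℝ) : ℂ) := by
    rw [fmean_eq]
    push_cast
    simp only [hy]
  have h3 : 0 < (∑ t, y t) / (Fintype.card (Fin m → kv v) : ℝ) :=
    div_pos (Finset.sum_pos (fun t _ => hy0 t) Finset.univ_nonempty) hc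
  unfold hlocE
  refine mul_ne_zero ?_ (mul_ne_zero (ZT_ne_zero (m := M) hA (σ := cT M θ) hs
    (by unfold cT; exact le_rfl) n v) (LE_ne (M := M) hA n v hs))
  rw [h2]
  exact_mod_cast h3.ne'

theorem HfE_ne_zero {g : ℕ} (hg : 1 ≤ g) {δ : 𝓞 K} (hδ0 : δ ≠ 0) {θ : ℝ}
    {A : ∀ k : Fin r, HeightOneSpectrum (𝓞 K) → Fin (d k) → ℂ}
    (hA : ∀ k v i, ‖A k v i‖ ≤ (qv v : ℝ) ^ θ)
    (hreal : ∀ k v j, (∑ i, A k v i ^ (j + 1)).im = 0) (n : Fin r → ℤ) {s : Fin r → ℂ}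
    (hs : s ∈ Om r (cT (2 * g + 1) θ)) (hs0 : ∀ k, (s k).im = 0) :
    HfE (2 * (g + 1)) δ A n s ≠ 0 := by
  obtain ⟨ε, hε, hxε⟩ := exists_delta hs
  obtain ⟨β, hβ, hb⟩ := hlocE_bound (K := K) hg hδ0 θ n hA hε
  exact tprod_ne_zero' hβ (fun v => hb s (fun k => by
      have := hxε k
      linarith) v)
    fun v => hlocE_ne_zero (M := 2 * g + 1) (by omega) hA hreal n v (fun k => (hs k).le) hs0

end

end Pool.Agent.T6.H9.HE
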