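import Pool.Agent.T6.H9.HE.SqfE

/-!
# Twists and points at infinity

Owner helper9.
-/

set_option autoImplicit false
set_option linter.unusedSectionVars false
set_option linter.style.haveILetI false
set_option linter.unusedVariables false

open Filter Topology Asymptotics Finset Polynomial

namespace Pool.Agent.T6.H9.HE

open Pool.Agent.T6.H9.MV Pool.Agent.T6.H9.HY Pool.Agent.H341R2.Sharp

section

variable {F : Type} [Field F] [Fintype F] [DecidableEq F]

/-- the quadratic character of an extension -/
lemma chi_ext (hF : ringChar F ≠ 2) {E : Type} [Field E] [Fintype E] [DecidableEq E]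
    [Algebra F E] {j : ℕ} (hE : Fintype.card E = Fintype.card F ^ j) {δ : F} (hδ : δ ≠ 0) :
    quadraticChar E (algebraMap F E δ) = (quadraticChar F δ) ^ j := by
  have hE2 : ringChar E ≠ 2 := by rwa [← Algebra.ringChar_eq F E]
  have hδ' : algebraMap F E δ ≠ 0 := by rwa [Ne, FaithfulSMul.algebraMap_eq_zero_iff]
  have hodd : Fintype.card F % 2 = 1 := FiniteField.odd_card_of_char_ne_two hF
  set q := Fintype.card F with hq
  have h1 := quadraticChar_eq_pow_of_char_ne_two' hE2 (algebraMap F E δ)
  have h2 := quadraticChar_eq_pow_of_char_ne_two' hF δ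
  -- the exponent
  have hexp : ∀ j : ℕ, ∃ e : ℕ, q ^ j / 2 = (q / 2) * e ∧ e % 2 = j % 2 := by
    intro j
    induction j with
    | zero => exact ⟨0, by norm_num, by norm_num⟩
    | succ j ih =>
      obtain ⟨e, he, hpar⟩ := ih
      have hqj : q ^ j % 2 = 1 := by
        rw [Nat.pow_mod, hodd]
        simp
      refine ⟨e + q ^ j, ?_, ?_⟩
      · have a1 : q = 2 * (q / 2) + 1 := by omega
        have a2 : q ^ j = 2 * (q ^ j / 2) + 1 := by omega
        have a3 : q ^ (j + 1) = 2 * (q ^ j / 2 + (q / 2) * q ^ j) + 1 := by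
          calc q ^ (j + 1) = q ^ j * q := pow_succ _ _
            _ = q ^ j * (2 * (q / 2) + 1) := by rw [← a1]
            _ = q ^ j + 2 * ((q / 2) * q ^ j) := by ring
            _ = (2 * (q ^ j / 2) + 1) + 2 * ((q / 2) * q ^ j) := by rw [← a2]
            _ = _ := by ring
        have a4 : q ^ (j + 1) / 2 = q ^ j / 2 + (q / 2) * q ^ j := by omega
        rw [a4, he]
        ring
      · omega
  obtain ⟨e, he, hpar⟩ := hexp j
  rw [hE, he, pow_mul, ← map_pow, ← h2] at h1
  have hne := Ring.neg_one_ne_one_of_char_ne_two hE2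
  rcases quadraticChar_dichotomy hδ with h3 | h3
  · rw [h3] at h1 ⊢
    rw [one_pow]
    rcases quadraticChar_dichotomy hδ' with h4 | h4
    · exact h4
    · rw [h4] at h1
      exfalso
      apply hne
      simpa using h1
  · rw [h3] at h1 ⊢
    have h5 : ((-1 : ℤ)) ^ j = (-1) ^ e := by
      rcases Nat.even_or_odd j with hj | hj
      · have he' : Even e := by
          rw [Nat.even_iff] at hj ⊢
          omega
        rw [hj.neg_one_pow, he'.neg_one_pow]
      · have he' : Odd e := by
          rw [Nat.odd_iff] at hj ⊢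
          omega
        rw [hj.neg_one_pow, he'.neg_one_pow]
    rw [h5]
    rcases quadraticChar_dichotomy hδ' with h4 | h4
    · rw [h4] at h1 ⊢
      rcases Nat.even_or_odd e with he' | he'
      · rw [he'.neg_one_pow]
      · exfalso
        apply hne
        have := h1
        push_cast at this
        rw [he'.neg_one_pow] at this
        exact this.symm
    · rw [h4] at h1 ⊢
      rcases Nat.even_or_odd e with he' | he'
      · exfalso
        apply hne
        have := h1
        push_cast at this
        rw [he'.neg_one_pow] at this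
        exact this
      · rw [he'.neg_one_pow]

/-- the number of points at infinity: solutions of `δ y² = 1` over the extension of degree `j` -/
noncomputable def infPts (k : Type) [Field k] (δ : k) (j : ℕ) : ℕ :=
  Nat.card {y : AlgebraicClosure k // y ^ (Nat.card k ^ j) = y ∧
    algebraMap k (AlgebraicClosure k) δ * y ^ 2 = 1}

lemma infPts_eq (δ : F) (j : ℕ) (E : Type) [Field E] [Finite E] [Algebra F E]
    (hE : Nat.card E = Nat.card F ^ j) :
    infPts F δ j = Nat.card {y : E // algebraMap F E δ * y ^ 2 = 1} := by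
  classical
  have : Module.Finite F E := Module.Finite.of_finite
  have : Algebra.IsAlgebraic F E := Algebra.IsAlgebraic.of_finite F E
  let g : E →ₐ[F] AlgebraicClosure F := IsAlgClosed.lift
  let _ : Algebra E (AlgebraicClosure F) := g.toRingHom.toAlgebra
  let _ := Fintype.ofFinite E
  have hg : ∀ x : E, algebraMap E (AlgebraicClosure F) x = g x := fun x => rfl
  have hfix : ∀ x : E, g x ^ (Nat.card F ^ j) = g x := by
    intro x
    rw [← map_pow, ← hE, Nat.card_eq_fintype_card, FiniteField.pow_card]
  unfold infPts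
  refine (Nat.card_congr (Equiv.ofBijective (fun y : {y : E // algebraMap F E δ * y ^ 2 = 1} =>
    (⟨g y.1, hfix _, by
      have := congrArg g y.2
      rw [map_mul, map_pow, AlgHom.commutes, map_one] at this
      exact this⟩ : {y : AlgebraicClosure F // y ^ (Nat.card F ^ j) = y ∧
        algebraMap F (AlgebraicClosure F) δ * y ^ 2 = 1})) ⟨?_, ?_⟩)).symm
  · rintro ⟨x, hx⟩ ⟨y, hy⟩ h
    simp only [Subtype.mk.injEq] at h
    exact Subtype.ext (g.toRingHom.injective h)
  · rintro ⟨y, h1, h2⟩
    rw [← hE] at h1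
    obtain ⟨b, hb⟩ := Pool.Agent.H126T.pow_mem_range (E := E) h1
    rw [hg] at hb
    refine ⟨⟨b, ?_⟩, ?_⟩
    · apply g.toRingHom.injective
      change g (algebraMap F E δ * b ^ 2) = g 1
      rw [map_mul, map_pow, AlgHom.commutes, hb, map_one]
      exact h2
    · exact Subtype.ext hb

/-- the traces of the twisted curve of even degree -/
lemma trace_even (hF : ringChar F ≠ 2) (f : F[X]) {δ : F} (hδ : δ ≠ 0) {j : ℕ} (hj : j ≠ 0) :
    (Fintype.card F : ℤ) ^ j + 1 - ((Pool.Agent.H126T.affPts F f δ j : ℤ) + (infPts F δ j : ℤ)) =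
      -((quadraticChar F δ) ^ j * (T f j + 1)) := by
  classical
  obtain ⟨E, i1, i2, i3, hE⟩ := Pool.Agent.H126T.exists_ext (k := F) j hj
  letI := Fintype.ofFinite E
  have hE2 : ringChar E ≠ 2 := by rwa [← Algebra.ringChar_eq F E]
  have hfr : Module.finrank F E = j := by
    have h1 : Nat.card E = Nat.card F ^ Module.finrank F E := by
      rw [Nat.card_eq_fintype_card, Nat.card_eq_fintype_card, Module.card_eq_pow_finrank (K := F)]
    rw [hE] at h1
    have h2 : 1 < Nat.card F := by
      rw [Nat.card_eq_fintype_card]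
      exact Fintype.one_lt_card
    exact (Nat.pow_right_injective h2 h1).symm
  have hEc : Fintype.card E = Fintype.card F ^ j := by
    rw [← Nat.card_eq_fintype_card, hE, Nat.card_eq_fintype_card]
  have hδ' : algebraMap F E δ ≠ 0 := by rwa [Ne, FaithfulSMul.algebraMap_eq_zero_iff]
  have h1 := T_eq_sum (F := F) (E := E) hF f
  rw [hfr] at h1
  have hinf : (infPts F δ j : ℤ) = quadraticChar E (algebraMap F E δ) + 1 := by
    rw [infPts_eq δ j E hE, Pool.Agent.H341R2.card_sqrt hE2 _ 1 hδ', map_one, mul_one]
  have haff : (Pool.Agent.H126T.affPts F f δ j : ℤ) = (Fintype.card F : ℤ) ^ j +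
      quadraticChar E (algebraMap F E δ) * T f j := by
    rw [Pool.Agent.H126T.affPts_eq f δ j E hE]
    have e1 : {P : E × E // algebraMap F E δ * P.2 ^ 2 = aeval P.1 f} =
        {P : E × E // algebraMap F E δ * P.2 ^ 2 = (f.map (algebraMap F E)).eval P.1} := by
      congr 1
      funext P
      rw [eval_map, aeval_def]
    rw [e1, Pool.Agent.H126T.card_aff hE2 (f.map (algebraMap F E)) _ hδ', hEc, h1]
    have e2 : ∀ x : E, (f.map (algebraMap F E)).eval x = aeval x f := fun x =>
      eval_map_algebraMap _ _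
    simp only [e2]
    push_cast
    ring
  rw [hinf, haff, chi_ext hF hEc hδ]
  ring

/-- the exponential form of the Euler factor for even degree -/
lemma EF_one_sub {f : F[X]} {C s : ℝ} (hC : 0 ≤ C) (hs : 1 ≤ s)
    (hT : ∀ j, 1 ≤ j → ‖(T f j : ℂ)‖ ≤ C * s ^ j) {u : ℂ} (hu : s * ‖u‖ < 1) :
    EF f u * (1 - u) = Complex.exp (LS (fun m => -((T f m : ℂ) + 1)) u) := by
  have hs0 : 0 ≤ s := by linarith
  have hu1 : ‖u‖ < 1 := by
    have : ‖u‖ ≤ s * ‖u‖ := by nlinarith [norm_nonneg u]
    linarith
  have hne : 1 - u ≠ 0 := by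
    intro h
    have h2 : u = 1 := (sub_eq_zero.1 h).symm
    rw [h2, norm_one] at hu1
    exact lt_irrefl _ hu1
  have h1 := LS_tP (d := 1) le_rfl (lam := 1) (u := u) (by simp) hu1
  have hs1 := LS_summable (t := fun m => -(T f m : ℂ)) (C := C) (s := s) hs0 hC
    (fun m hm => by rw [norm_neg]; exact hT m hm) hu
  have hs2 := LS_summable (t := tP 1 1) (C := 1) (s := 1) zero_le_one zero_le_one
    (fun m hm => by
      have := tP_norm (d := 1) (lam := 1) (by simp) m
      simpa using this) (u := u) (by simpa using hu1)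
  have h2 : LS (fun m => -((T f m : ℂ) + 1)) u = LS (fun m => -(T f m : ℂ)) u + LS (tP 1 1) u := by
    unfold LS
    rw [← hs1.tsum_add hs2]
    refine tsum_congr fun m => ?_
    unfold tP
    simp only [one_dvd, if_true, one_pow, Nat.cast_one]
    ring
  rw [h2, Complex.exp_add, h1, one_mul, pow_one, Complex.exp_log hne]
  rfl

end

end Pool.Agent.T6.H9.HE
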