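import Pool.Agent.T6.H9.TP.Defs

/-!
# Definitions for the mean values over curves `d y² = f(x)`, `f` monic of even degree

Owner helper9.
-/

set_option autoImplicit false

open NumberField IsDedekindDomain Polynomial

namespace Pool.Agent.T6.H9.EvenL

variable {K : Type} [Field K] [NumberField K]

/-- The number of solutions of `d y² = f(x)` with `x`, `y` in the extension of degree `j` of the
residue field `k = 𝓞_K / v` (inside an algebraic closure of `k`). -/
noncomputable def pts (d : 𝓞 K) (f : (𝓞 K)[X]) (v : HeightOneSpectrum (𝓞 K)) (j : ℕ) : ℕ :=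
  letI : Field (𝓞 K ⧸ v.asIdeal) := haveI := v.isMaximal; Ideal.Quotient.field v.asIdeal
  Nat.card {P : AlgebraicClosure (𝓞 K ⧸ v.asIdeal) × AlgebraicClosure (𝓞 K ⧸ v.asIdeal) //
    P.1 ^ (Ideal.absNorm v.asIdeal ^ j) = P.1 ∧ P.2 ^ (Ideal.absNorm v.asIdeal ^ j) = P.2 ∧
    algebraMap (𝓞 K ⧸ v.asIdeal) (AlgebraicClosure (𝓞 K ⧸ v.asIdeal))
      (Ideal.Quotient.mk v.asIdeal d) * P.2 ^ 2 = aeval P.1 (f.map (Ideal.Quotient.mk v.asIdeal))}

/-- The number of points at infinity over the extension of degree `j` of the residue field of the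
smooth projective curve `d y² = f(x)`, `f` monic of even degree: the solutions of `d y² = 1`. -/
noncomputable def ptsInf (d : 𝓞 K) (v : HeightOneSpectrum (𝓞 K)) (j : ℕ) : ℕ :=
  letI : Field (𝓞 K ⧸ v.asIdeal) := haveI := v.isMaximal; Ideal.Quotient.field v.asIdeal
  Nat.card {y : AlgebraicClosure (𝓞 K ⧸ v.asIdeal) //
    y ^ (Ideal.absNorm v.asIdeal ^ j) = y ∧
    algebraMap (𝓞 K ⧸ v.asIdeal) (AlgebraicClosure (𝓞 K ⧸ v.asIdeal))
      (Ideal.Quotient.mk v.asIdeal d) * y ^ 2 = 1}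

open Classical in
/-- The Euler factor at `v` of the L-function of `h¹(C) ⊗ M`, where `C` is the curve `d y² = f(x)`,
`f` monic of even degree, and `M` is a motive with Frobenius eigenvalues `A v 0, …, A v (e - 1)`
at `v`. If `v ∤ 2 d` and `f` is separable modulo `v`, the traces of the powers of Frobenius on
`H¹(C)` are `q^j + 1 - #C(F_{q^j})`, `q = N v`, and the Euler factor is
`exp (∑_{j ≥ 1} (∑_i (A v i)^j) (q^j + 1 - #C(F_{q^j})) q^{-js} / j)`; at the other `v` the Euler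
factor is omitted. -/
noncomputable def factor (d : 𝓞 K) (f : (𝓞 K)[X]) {e : ℕ}
    (A : HeightOneSpectrum (𝓞 K) → Fin e → ℂ) (v : HeightOneSpectrum (𝓞 K)) (s : ℂ) : ℂ :=
  if 2 * d ∈ v.asIdeal ∨ ¬ (f.map (Ideal.Quotient.mk v.asIdeal)).Separable then 1 else
    Complex.exp (∑' j : ℕ, (∑ i, A v i ^ (j + 1)) *
      (((Ideal.absNorm v.asIdeal : ℤ) ^ (j + 1) + 1 -
        ((pts d f v (j + 1) : ℤ) + (ptsInf d v (j + 1) : ℤ)) : ℤ) : ℂ) *
        ((Ideal.absNorm v.asIdeal : ℂ) ^ (-s)) ^ (j + 1) / ((j : ℂ) + 1))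

/-- The L-function of `h¹(C) ⊗ M` over `K`, without the Euler factors at the primes dividing
`2 d disc(f)`. -/
noncomputable def Lfun (d : 𝓞 K) (f : (𝓞 K)[X]) {e : ℕ}
    (A : HeightOneSpectrum (𝓞 K) → Fin e → ℂ) (s : ℂ) : ℂ :=
  ∏' v : HeightOneSpectrum (𝓞 K), factor d f A v s

open Classical in
/-- The quadratic character of `K(√d)/K` at `v`; `0` at the primes dividing `2 d`. -/
noncomputable def chi (d : 𝓞 K) (v : HeightOneSpectrum (𝓞 K)) : ℂ :=
  if 2 * d ∈ v.asIdeal then 0 else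
    if IsSquare (Ideal.Quotient.mk v.asIdeal d) then 1 else -1

/-- The L-function `L(s, M ⊗ χ_d)`. -/
noncomputable def Ltw (d : 𝓞 K) {e : ℕ} (A : HeightOneSpectrum (𝓞 K) → Fin e → ℂ) (s : ℂ) : ℂ :=
  ∏' v : HeightOneSpectrum (𝓞 K),
    (∏ i, (1 - chi d v * A v i * (Ideal.absNorm v.asIdeal : ℂ) ^ (-s)))⁻¹

end Pool.Agent.T6.H9.EvenL
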