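import Pool.Agent.T6.H9.HE.Xi

/-!
# The local estimate for monic polynomials of even degree

Owner helper9.
-/

set_option autoImplicit false
set_option linter.unusedSectionVars false
set_option linter.style.haveILetI false
set_option linter.unusedVariables false

open Filter Topology Asymptotics Finset Polynomial

namespace Pool.Agent.T6.H9.HE

open Pool.Agent.T6.H9.MV Pool.Agent.T6.H9.HY Pool.Agent.H341R2.Sharp

section

variable {F : Type} [Field F] [Fintype F] [DecidableEq F] {r : ℕ}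

open Classical in
lemma norm_fmean_sq {μ : ℕ} {g : (Fin (2 * μ) → F) → ℂ} {β : ℝ} (hβ : 0 ≤ β)
    (h : ∀ a, IsSq (mkP (2 * μ) a) → ‖g a‖ ≤ β) :
    ‖fmean (fun a => if IsSq (mkP (2 * μ) a) then g a else 0)‖ ≤
      β / (Fintype.card F : ℝ) ^ μ := by
  have hq0 : (0 : ℝ) < Fintype.card F := by exact_mod_cast Fintype.card_pos
  have hc : (0 : ℝ) < (Fintype.card (Fin (2 * μ) → F) : ℝ) := by exact_mod_cast Fintype.card_pos
  rw [fmean_eq, norm_div, Complex.norm_natCast, div_le_iff₀ hc]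
  have h1 : ∀ a : Fin (2 * μ) → F, ‖if IsSq (mkP (2 * μ) a) then g a else 0‖ ≤
      if IsSq (mkP (2 * μ) a) then β else 0 := by
    intro a
    split_ifs with ha
    · exact h a ha
    · simp
  refine (norm_sum_le _ _).trans ((Finset.sum_le_sum fun a _ => h1 a).trans ?_)
  rw [← Finset.sum_filter, Finset.sum_const, nsmul_eq_mul]
  have h2 : ((Finset.univ.filter fun a : Fin (2 * μ) → F => IsSq (mkP (2 * μ) a)).card : ℝ) ≤
      (Fintype.card F : ℝ) ^ μ := by exact_mod_cast card_sq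
  rw [Fintype.card_fun, Fintype.card_fin]
  push_cast
  calc ((Finset.univ.filter fun a : Fin (2 * μ) → F => IsSq (mkP (2 * μ) a)).card : ℝ) * β ≤
      (Fintype.card F : ℝ) ^ μ * β := by gcongr
    _ = β / (Fintype.card F : ℝ) ^ μ * (Fintype.card F : ℝ) ^ (2 * μ) := by
      rw [two_mul, pow_add]
      field_simp

end

open Classical in
/-- **The local estimate** over the monic polynomials of degree `2 μ` which are not squares. -/
theorem even_local {r : ℕ} (n : Fin r → ℤ) {μ : ℕ} (hμ : 1 ≤ μ) {ρ : ℝ} (hρ2 : 1 / 2 ≤ ρ)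
    (hρ1 : ρ < 1) :
    ∃ C : ℝ, 0 ≤ C ∧ ∀ (F : Type) [Field F] [Fintype F] [DecidableEq F], ringChar F ≠ 2 →
      ∀ κ : ℝ, 0 < κ → κ ≤ ρ ^ 2 → ∀ t : Fin r → ℂ,
        (∀ k, √(Fintype.card F : ℝ) * ‖t k‖ ≤ κ) →
        ‖fmean (fun a : Fin (2 * μ) → F => if IsSq (mkP (2 * μ) a) then 0 else
            ∏ k, EF (mkP (2 * μ) a) (t k) ^ n k) *
          ∏ p ∈ prs r, (1 - (Fintype.card F : ℂ) * (t p.1 * t p.2)) ^ ex n p - 1‖ ≤
          C * (κ ^ 2 / Fintype.card F + κ ^ (2 * μ) + 1 / (Fintype.card F : ℝ) ^ μ) := by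
  obtain ⟨C₀, hC₀, hest⟩ := Xi_est n (2 * μ)
  have hρ0 : 0 < ρ := by linarith
  have h1ρ : 0 < 1 - ρ := by linarith
  set E : ℝ := Real.exp (5 * (2 * μ : ℕ) / (1 - ρ)) with hE
  have hE1 : 1 ≤ E := Real.one_le_exp (by positivity)
  set E' : ℝ := Real.exp (1 / (1 - 1 / 2)) with hE'
  have hE'1 : 1 ≤ E' := Real.one_le_exp (by norm_num)
  have hL := one_le_Lam ρ
  set M₁ : ℝ := E ^ Nt n * Lam ρ ^ Np n with hM1
  set M₂ : ℝ := Real.exp (3 * C₀) with hM2
  set M₄ : ℝ := E' ^ Nt n * Lam ρ ^ Np n with hM4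
  have hM10 : 0 ≤ M₁ := by positivity
  have hM20 : 0 ≤ M₂ := by positivity
  have hM40 : 0 ≤ M₄ := by positivity
  set M₃ : ℝ := M₄ * ((2 * μ + 1 : ℕ) * 2 ^ (2 * μ)) with hM3
  have hM30 : 0 ≤ M₃ := by positivity
  refine ⟨(M₁ + M₃ + M₂) / (ρ ^ (2 * μ + 1) * (1 - ρ)) + M₃ + 3 * C₀ * Real.exp (3 * C₀),
    by positivity, ?_⟩
  intro F _ _ _ hF κ hκ hκρ t ht
  set q : ℝ := (Fintype.card F : ℝ) with hq
  have hq3 : (3 : ℝ) ≤ q := by
    rw [hq]
    exact_mod_cast three_le hF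
  have hq0 : 0 < q := by linarith
  have hq1 : 1 ≤ q := by linarith
  have hsq0 : 0 < √q := Real.sqrt_pos.2 hq0
  have hsq1 : 1 ≤ √q := Real.one_le_sqrt.2 hq1
  have hsqq : √q * √q = q := Real.mul_self_sqrt hq0.le
  have hqc : ((Fintype.card F : ℕ) : ℂ) = ((q : ℝ) : ℂ) := by rw [hq]; push_cast; rfl
  set R : ℝ := ρ / κ with hR
  have hR0 : 0 < R := by positivity
  have hRi : 1 / R ≤ ρ := by
    rw [hR, one_div_div, div_le_iff₀ hρ0, ← sq]
    exact hκρ
  have hR1 : 1 < R := by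
    have h1 : 1 / R < 1 := hRi.trans_lt hρ1
    rwa [div_lt_one hR0] at h1
  set r₀ : ℝ := 1 / (2 * (√q * κ)) with hr0
  have hr00 : 0 < r₀ := by positivity
  have hr0R : r₀ ≤ R := by
    rw [hr0, hR, div_le_div_iff₀ (by positivity) hκ]
    nlinarith [mul_pos hsq0 hκ]
  have hwt : ∀ w : ℂ, ‖w‖ ≤ R → ∀ k, √q * ‖w * t k‖ ≤ ρ := by
    intro w hw k
    rw [norm_mul]
    calc √q * (‖w‖ * ‖t k‖) = ‖w‖ * (√q * ‖t k‖) := by ring
      _ ≤ R * κ := mul_le_mul hw (ht k) (by positivity) hR0.le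
      _ = ρ := by rw [hR]; field_simp
  have hwt0 : ∀ w : ℂ, ‖w‖ ≤ r₀ → ∀ k, q * ‖w * t k‖ ≤ 1 / 2 := by
    intro w hw k
    rw [norm_mul]
    calc q * (‖w‖ * ‖t k‖) = √q * ‖w‖ * (√q * ‖t k‖) := by
          nth_rewrite 1 [← hsqq]
          ring
      _ ≤ √q * r₀ * κ := by
          apply mul_le_mul _ (ht k) (by positivity) (by positivity)
          gcongr
      _ = 1 / 2 := by
          rw [hr0]
          field_simp
  have hmd : ∀ a : Fin (2 * μ) → F, 1 ≤ (mkP (2 * μ) a).natDegree := fun a => by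
    rw [mkP_natDegree]
    omega
  have hTn : ∀ a : Fin (2 * μ) → F, ¬ IsSq (mkP (2 * μ) a) → ∀ j, 1 ≤ j →
      ‖(T (mkP (2 * μ) a) j : ℂ)‖ ≤ (5 * (2 * μ : ℕ) : ℝ) * (√q) ^ j := by
    intro a ha j hj
    have := T_nonsq hF (mkP_monic (2 * μ) a) (hmd a) ha hj
    rwa [mkP_natDegree] at this
  have hTs : ∀ a : Fin (2 * μ) → F, ∀ j, 1 ≤ j →
      ‖(T (mkP (2 * μ) a) j : ℂ)‖ ≤ 1 * q ^ j := fun a j hj => T_triv hF _ hj
  -- the functions
  set Zf : ℂ → ℂ := fun w => ∏ p ∈ prs r,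
    (1 - (Fintype.card F : ℂ) * ((w * t p.1) * (w * t p.2))) ^ ex n p with hZf
  set V : ℂ → ℂ := fun w => fmean (fun a : Fin (2 * μ) → F => if IsSq (mkP (2 * μ) a) then 0 else
      ∏ k, EF (mkP (2 * μ) a) (w * t k) ^ n k) * Zf w with hV
  set U : ℂ → ℂ := fun w => fmean (fun a : Fin (2 * μ) → F => if IsSq (mkP (2 * μ) a) then
      ∏ k, EF (mkP (2 * μ) a) (w * t k) ^ n k else 0) * Zf w with hU
  have hVU : ∀ w, FH F n (2 * μ) t w = V w + U w := by
    intro w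
    rw [hV, hU]
    simp only
    rw [← add_mul]
    unfold FH
    congr 1
    rw [fmean_eq, fmean_eq, fmean_eq, ← add_div, ← Finset.sum_add_distrib]
    congr 1
    refine Finset.sum_congr rfl fun a _ => ?_
    split_ifs <;> simp
  have hZb : ∀ w : ℂ, ‖w‖ ≤ R → ‖Zf w‖ ≤ Lam ρ ^ Np n := by
    intro w hw
    rw [hZf]
    simp only
    rw [norm_prod, Np, ← Finset.prod_pow_eq_pow_sum]
    refine Finset.prod_le_prod (fun _ _ => norm_nonneg _) fun p _ => ?_
    obtain ⟨b1, b2⟩ := pair_Lam hq0 (hwt w hw p.1) (hwt w hw p.2) hρ1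
    rw [hqc]
    exact norm_zpow_le b1 b2 hL _
  have hZd : ∀ w : ℂ, ‖w‖ ≤ R → DifferentiableAt ℂ Zf w := by
    intro w hw
    rw [hZf]
    refine DifferentiableAt.fun_finsetProd fun p _ => ?_
    have h2 : 1 - (Fintype.card F : ℂ) * ((w * t p.1) * (w * t p.2)) ≠ 0 := by
      rw [hqc]
      exact ne_zero_of_bounds (pair_Lam hq0 (hwt w hw p.1) (hwt w hw p.2) hρ1).1
    have h3 : DifferentiableAt ℂ
        (fun w : ℂ => 1 - (Fintype.card F : ℂ) * ((w * t p.1) * (w * t p.2))) w := by fun_prop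
    exact h3.zpow (Or.inl h2)
  have hkt : ∀ w : ℂ, ∀ k, DifferentiableAt ℂ (fun w : ℂ => w * t k) w := fun w k => by fun_prop
  -- the part without squares
  have hVb : ∀ w : ℂ, ‖w‖ ≤ R → ‖V w‖ ≤ M₁ := by
    intro w hw
    rw [hV]
    simp only
    rw [norm_mul]
    refine mul_le_mul ?_ (hZb w hw) (norm_nonneg _) (by positivity)
    refine norm_fmean_le fun a => ?_
    split_ifs with ha
    · rw [norm_zero]
      positivity
    · rw [norm_prod, Nt, ← Finset.prod_pow_eq_pow_sum]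
      refine Finset.prod_le_prod (fun _ _ => norm_nonneg _) fun k _ => ?_
      obtain ⟨b1, b2⟩ := EF_bnd (C := 5 * (2 * μ : ℕ)) (by positivity) (Real.sqrt_nonneg _)
        (hTn a ha) (hwt w hw k) hρ1
      exact norm_zpow_le b1 b2 hE1 _
  have hVd : ∀ w : ℂ, ‖w‖ ≤ R → DifferentiableAt ℂ V w := by
    intro w hw
    rw [hV]
    refine DifferentiableAt.mul ?_ (hZd w hw)
    have h2 : (fun w => fmean (fun a : Fin (2 * μ) → F => if IsSq (mkP (2 * μ) a) then (0 : ℂ) else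
        ∏ k, EF (mkP (2 * μ) a) (w * t k) ^ n k)) =
        fun w => (∑ a : Fin (2 * μ) → F, if IsSq (mkP (2 * μ) a) then (0 : ℂ) else
        ∏ k, EF (mkP (2 * μ) a) (w * t k) ^ n k) / (Fintype.card (Fin (2 * μ) → F) : ℂ) := by
      funext w
      rw [fmean_eq]
    rw [h2]
    refine DifferentiableAt.div_const (DifferentiableAt.fun_sum fun a _ => ?_) _
    split_ifs with ha
    · exact differentiableAt_const _
    · refine DifferentiableAt.fun_finsetProd fun k _ => ?_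
      have h3 : DifferentiableAt ℂ (EF (mkP (2 * μ) a) ∘ fun w : ℂ => w * t k) w :=
        DifferentiableAt.comp w (EF_dif (C := 5 * (2 * μ : ℕ)) (by positivity) hsq0 (hTn a ha)
          ((hwt w hw k).trans_lt hρ1)) (hkt w k)
      exact h3.zpow (Or.inl (Complex.exp_ne_zero _))
  -- the squares
  have hUb : ∀ w ∈ Metric.closedBall (0 : ℂ) r₀, ‖U w‖ ≤ M₄ / q ^ μ := by
    intro w hw
    have hw' : ‖w‖ ≤ r₀ := by simpa using hw
    rw [hU]
    simp only
    rw [norm_mul]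
    have h1 := norm_fmean_sq (F := F) (μ := μ)
      (g := fun a => ∏ k, EF (mkP (2 * μ) a) (w * t k) ^ n k) (β := E' ^ Nt n) (by positivity)
      (fun a _ => by
        rw [norm_prod, Nt, ← Finset.prod_pow_eq_pow_sum]
        refine Finset.prod_le_prod (fun _ _ => norm_nonneg _) fun k _ => ?_
        obtain ⟨b1, b2⟩ := EF_bnd (C := 1) zero_le_one hq0.le (hTs a) (hwt0 w hw' k)
          (by norm_num)
        exact norm_zpow_le b1 b2 hE'1 _)
    calc _ ≤ E' ^ Nt n / q ^ μ * Lam ρ ^ Np n :=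
          mul_le_mul h1 (hZb w (hw'.trans hr0R)) (norm_nonneg _) (by positivity)
      _ = M₄ / q ^ μ := by rw [hM4]; ring
  have hUd : DifferentiableOn ℂ U (Metric.closedBall 0 r₀) := by
    intro w hw
    have hw' : ‖w‖ ≤ r₀ := by simpa using hw
    apply DifferentiableAt.differentiableWithinAt
    rw [hU]
    refine DifferentiableAt.mul ?_ (hZd w (hw'.trans hr0R))
    have h2 : (fun w => fmean (fun a : Fin (2 * μ) → F => if IsSq (mkP (2 * μ) a) then
        ∏ k, EF (mkP (2 * μ) a) (w * t k) ^ n k else (0 : ℂ))) =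
        fun w => (∑ a : Fin (2 * μ) → F, if IsSq (mkP (2 * μ) a) then
        ∏ k, EF (mkP (2 * μ) a) (w * t k) ^ n k else (0 : ℂ)) /
          (Fintype.card (Fin (2 * μ) → F) : ℂ) := by
      funext w
      rw [fmean_eq]
    rw [h2]
    refine DifferentiableAt.div_const (DifferentiableAt.fun_sum fun a _ => ?_) _
    split_ifs with ha
    · refine DifferentiableAt.fun_finsetProd fun k _ => ?_
      have h3 : DifferentiableAt ℂ (EF (mkP (2 * μ) a) ∘ fun w : ℂ => w * t k) w :=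
        DifferentiableAt.comp w (EF_dif (C := 1) zero_le_one hq0 (hTs a)
          ((hwt0 w hw' k).trans_lt (by norm_num))) (hkt w k)
      exact h3.zpow (Or.inl (Complex.exp_ne_zero _))
    · exact differentiableAt_const _
  obtain ⟨c, hc, hcO⟩ := taylor_poly hr00 hUd hUb (2 * μ + 1)
  set P : ℂ → ℂ := fun w => ∑ j ∈ range (2 * μ + 1), c j * w ^ j with hP
  -- sizes of the coefficients
  have hcj : ∀ j, ‖c j‖ ≤ M₄ / q ^ μ * (2 * (√q * κ)) ^ j := by
    intro j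
    refine (hc j).trans (le_of_eq ?_)
    rw [hr0, one_div, inv_pow, div_inv_eq_mul]
  have hqμ : q ^ μ = (√q) ^ (2 * μ) := by
    rw [pow_mul, Real.sq_sqrt hq0.le]
  have hPb : ∀ w : ℂ, ‖w‖ ≤ R → ‖P w‖ ≤ M₃ := by
    intro w hw
    rw [hP]
    simp only
    refine (norm_sum_le _ _).trans ?_
    have h1 : ∀ j ∈ range (2 * μ + 1), ‖c j * w ^ j‖ ≤ M₄ * 2 ^ (2 * μ) := by
      intro j hj
      have hj' : j ≤ 2 * μ := by
        have := Finset.mem_range.1 hj
        omega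
      rw [norm_mul, norm_pow]
      calc ‖c j‖ * ‖w‖ ^ j ≤ (M₄ / q ^ μ * (2 * (√q * κ)) ^ j) * R ^ j :=
            mul_le_mul (hcj j) (pow_le_pow_left₀ (norm_nonneg _) hw j) (by positivity)
              (by positivity)
        _ = M₄ * 2 ^ j * (√q ^ j * ρ ^ j / q ^ μ) := by
            rw [hR, mul_pow, mul_pow, div_pow]
            field_simp
        _ ≤ M₄ * 2 ^ (2 * μ) * 1 := by
            apply mul_le_mul _ _ (by positivity) (by positivity)
            · gcongr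
              norm_num
            · rw [div_le_one (by positivity), hqμ]
              calc √q ^ j * ρ ^ j ≤ √q ^ (2 * μ) * 1 := by
                    apply mul_le_mul _ (pow_le_one₀ hρ0.le hρ1.le) (by positivity) (by positivity)
                    exact pow_le_pow_right₀ hsq1 hj'
                _ = √q ^ (2 * μ) := mul_one _
        _ = M₄ * 2 ^ (2 * μ) := mul_one _
    refine (Finset.sum_le_sum h1).trans (le_of_eq ?_)
    rw [Finset.sum_const, Finset.card_range, nsmul_eq_mul, hM3]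
    ring
  have hP1 : ‖P 1‖ ≤ M₃ * (κ ^ (2 * μ) + 1 / q ^ μ) := by
    rw [hP]
    simp only
    refine (norm_sum_le _ _).trans ?_
    have h1 : ∀ j ∈ range (2 * μ + 1), ‖c j * 1 ^ j‖ ≤
        M₄ * 2 ^ (2 * μ) * (κ ^ (2 * μ) + 1 / q ^ μ) := by
      intro j hj
      have hj' : j ≤ 2 * μ := by
        have := Finset.mem_range.1 hj
        omega
      rw [one_pow, mul_one]
      have h3 : (√q * κ) ^ j ≤ (√q * κ) ^ (2 * μ) + 1 := by
        rcases le_total (√q * κ) 1 with h | h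
        · have h4 := pow_le_one₀ (n := j) (by positivity : 0 ≤ √q * κ) h
          have h5 : 0 ≤ (√q * κ) ^ (2 * μ) := by positivity
          linarith
        · have h4 := pow_le_pow_right₀ h hj'
          linarith
      calc ‖c j‖ ≤ M₄ / q ^ μ * (2 * (√q * κ)) ^ j := hcj j
        _ = M₄ * 2 ^ j * ((√q * κ) ^ j / q ^ μ) := by
            rw [mul_pow]
            ring
        _ ≤ M₄ * 2 ^ (2 * μ) * (((√q * κ) ^ (2 * μ) + 1) / q ^ μ) := by
            gcongr
            norm_num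
        _ = M₄ * 2 ^ (2 * μ) * (κ ^ (2 * μ) + 1 / q ^ μ) := by
            rw [add_div, mul_pow, hqμ]
            congr 2
            field_simp
    refine (Finset.sum_le_sum h1).trans (le_of_eq ?_)
    rw [Finset.sum_const, Finset.card_range, nsmul_eq_mul, hM3]
    ring
  -- the difference
  have hdiff : DiffContOnCl ℂ (fun w => V w + P w - XiR (F := F) n (2 * μ) t w)
      (Metric.ball 0 R) := by
    refine DifferentiableOn.diffContOnCl ?_
    rw [closure_ball _ hR0.ne']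
    intro w hw
    have hw' : ‖w‖ ≤ R := by simpa using hw
    apply DifferentiableAt.differentiableWithinAt
    have hPd : DifferentiableAt ℂ P w := by
      rw [hP]
      fun_prop
    exact ((hVd w hw').add hPd).sub (Xi_diff hF n (2 * μ) t fun k =>
      (hwt w hw' k).trans hρ1.le)
  have hρsq : ρ ^ 2 ≤ 1 := by nlinarith
  have hqz : ∀ y : ℝ, 0 < y → y ^ 2 ≤ 1 → y ^ 2 / q ≤ 1 := by
    intro y hy hy1
    rw [div_le_one hq0]
    linarith
  have hXb : ∀ w : ℂ, ‖w‖ ≤ R → ‖XiR (F := F) n (2 * μ) t w‖ ≤ M₂ := by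
    intro w hw
    have h1 := hest F hF t w ρ hρ0 hρsq (hwt w hw)
    have h2 : ‖XiR (F := F) n (2 * μ) t w‖ ≤ ‖XiR (F := F) n (2 * μ) t w - 1‖ + 1 := by
      calc ‖XiR (F := F) n (2 * μ) t w‖ = ‖(XiR (F := F) n (2 * μ) t w - 1) + 1‖ := by ring_nf
        _ ≤ _ := by
          refine (norm_add_le _ _).trans ?_
          rw [norm_one]
    have h3 : Real.exp (3 * C₀ * (ρ ^ 2 / q)) ≤ Real.exp (3 * C₀) := by
      apply Real.exp_le_exp.2
      have := hqz ρ hρ0 hρsq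
      have h4 : 0 ≤ 3 * C₀ := by positivity
      nlinarith
    rw [hM2]
    linarith
  have hbd : ∀ z ∈ Metric.sphere (0 : ℂ) R,
      ‖V z + P z - XiR (F := F) n (2 * μ) t z‖ ≤ M₁ + M₃ + M₂ := by
    intro z hz
    have hz' : ‖z‖ ≤ R := le_of_eq (by simpa using hz)
    refine (norm_sub_le _ _).trans (add_le_add ((norm_add_le _ _).trans
      (add_le_add (hVb z hz') (hPb z hz'))) (hXb z hz'))
  have hO : (fun w => V w + P w - XiR (F := F) n (2 * μ) t w) =O[𝓝 0]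
      fun w => w ^ (2 * μ + 1) := by
    have h1 := FH_bigO' hF n (m := 2 * μ) t
    refine (h1.sub hcO).congr_left fun w => ?_
    rw [hVU]
    ring
  have hmain := taylor_tail hR1 hdiff hbd (2 * μ + 1) fun j hj =>
    iteratedDeriv_of_isBigO hR0 hdiff hO hj
  have hV1 : V 1 = fmean (fun a : Fin (2 * μ) → F => if IsSq (mkP (2 * μ) a) then 0 else
            ∏ k, EF (mkP (2 * μ) a) (t k) ^ n k) *
          ∏ p ∈ prs r, (1 - (Fintype.card F : ℂ) * (t p.1 * t p.2)) ^ ex n p := by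
    rw [hV, hZf]
    simp only [one_mul]
  have hκ1 : κ ^ 2 ≤ 1 := by
    have : κ ≤ 1 := by nlinarith
    nlinarith
  have hX1 := hest F hF t 1 κ hκ hκ1 (fun k => by rw [one_mul]; exact ht k)
  have hX2 : Real.exp (3 * C₀ * (κ ^ 2 / q)) - 1 ≤
      3 * C₀ * (κ ^ 2 / q) * Real.exp (3 * C₀) := by
    refine exp_sub_one_le (by positivity) ?_
    have := hqz κ hκ hκ1
    have h4 : 0 ≤ 3 * C₀ := by positivity
    nlinarith
  have hκ1' : κ ≤ 1 := by nlinarith
  have h2 : (M₁ + M₃ + M₂) * (1 / R) ^ (2 * μ + 1) / (1 - 1 / R) ≤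
      (M₁ + M₃ + M₂) / (ρ ^ (2 * μ + 1) * (1 - ρ)) * κ ^ (2 * μ) := by
    have h3 : (1 / R) ^ (2 * μ + 1) = κ ^ (2 * μ + 1) / ρ ^ (2 * μ + 1) := by
      rw [hR, one_div_div, div_pow]
    rw [h3]
    calc (M₁ + M₃ + M₂) * (κ ^ (2 * μ + 1) / ρ ^ (2 * μ + 1)) / (1 - 1 / R) ≤
          (M₁ + M₃ + M₂) * (κ ^ (2 * μ + 1) / ρ ^ (2 * μ + 1)) / (1 - ρ) := by
          apply div_le_div_of_nonneg_left (by positivity) h1ρ
          linarith
      _ = (M₁ + M₃ + M₂) / (ρ ^ (2 * μ + 1) * (1 - ρ)) * κ ^ (2 * μ + 1) := by field_simp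
      _ ≤ (M₁ + M₃ + M₂) / (ρ ^ (2 * μ + 1) * (1 - ρ)) * κ ^ (2 * μ) := by
          apply mul_le_mul_of_nonneg_left _ (by positivity)
          rw [pow_succ]
          exact mul_le_of_le_one_right (by positivity) hκ1'
  rw [← hV1]
  have h3 : V 1 - 1 = (V 1 + P 1 - XiR (F := F) n (2 * μ) t 1) - P 1 +
      (XiR (F := F) n (2 * μ) t 1 - 1) := by ring
  rw [h3]
  have h4 := hmain.trans h2
  have h5 := hX1.trans hX2
  have a1 : 0 ≤ κ ^ 2 / q := by positivity
  have a2 : 0 ≤ κ ^ (2 * μ) := by positivity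
  have a3 : 0 ≤ 1 / q ^ μ := by positivity
  have b1 : 0 ≤ (M₁ + M₃ + M₂) / (ρ ^ (2 * μ + 1) * (1 - ρ)) := by positivity
  have b2 : 0 ≤ 3 * C₀ * Real.exp (3 * C₀) := by positivity
  calc ‖(V 1 + P 1 - XiR (F := F) n (2 * μ) t 1) - P 1 + (XiR (F := F) n (2 * μ) t 1 - 1)‖ ≤
        (‖V 1 + P 1 - XiR (F := F) n (2 * μ) t 1‖ + ‖P 1‖) +
          ‖XiR (F := F) n (2 * μ) t 1 - 1‖ :=
          (norm_add_le _ _).trans (add_le_add (norm_sub_le _ _) le_rfl)
    _ ≤ ((M₁ + M₃ + M₂) / (ρ ^ (2 * μ + 1) * (1 - ρ)) * κ ^ (2 * μ) +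
          M₃ * (κ ^ (2 * μ) + 1 / q ^ μ)) + 3 * C₀ * (κ ^ 2 / q) * Real.exp (3 * C₀) :=
          add_le_add (add_le_add h4 hP1) h5
    _ ≤ ((M₁ + M₃ + M₂) / (ρ ^ (2 * μ + 1) * (1 - ρ)) *
          (κ ^ 2 / q + κ ^ (2 * μ) + 1 / q ^ μ) +
          M₃ * (κ ^ 2 / q + κ ^ (2 * μ) + 1 / q ^ μ)) +
          3 * C₀ * Real.exp (3 * C₀) * (κ ^ 2 / q + κ ^ (2 * μ) + 1 / q ^ μ) := by
          have e1 : 3 * C₀ * (κ ^ 2 / q) * Real.exp (3 * C₀) =
            3 * C₀ * Real.exp (3 * C₀) * (κ ^ 2 / q) := by ring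
          rw [e1]
          gcongr <;> linarith
    _ = _ := by ring

end Pool.Agent.T6.H9.HE
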