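import Pool.Agent.T6.H9.HE.Char
import Pool.Agent.T6.H9.HE.Defs
import Pool.Agent.T6.H9.TP.Pol

/-!
# Local factors at the primes, even degree

Owner helper9.
-/

set_option autoImplicit false
set_option linter.unusedSectionVars false
set_option linter.style.haveILetI false
set_option linter.unusedVariables false

open Filter Topology Polynomial NumberField IsDedekindDomain

namespace Pool.Agent.T6.H9.HE

open Pool.Agent.T6.H9 Pool.Agent.T6.H9.MV Pool.Agent.T6.H9.HY Pool.Agent.T6.H9.TensorL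
open Pool.Agent.T6.H9.TP Pool.Agent.H341R2.Sharp

section

variable {K : Type} [Field K] [NumberField K] {m r : ℕ} {d : Fin r → ℕ}

/-- the twisted eigenvalues -/
noncomputable def tw (δ : 𝓞 K) {e : ℕ} (A : HeightOneSpectrum (𝓞 K) → Fin e → ℂ) :
    HeightOneSpectrum (𝓞 K) → Fin e → ℂ := fun v i => EvenL.chi δ v * A v i

lemma chi_norm (δ : 𝓞 K) (v : HeightOneSpectrum (𝓞 K)) : ‖EvenL.chi δ v‖ ≤ 1 := by
  unfold EvenL.chi
  split_ifs <;> simp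

lemma chi_sq {δ : 𝓞 K} {v : HeightOneSpectrum (𝓞 K)} (h : 2 * δ ∉ v.asIdeal) :
    EvenL.chi δ v * EvenL.chi δ v = 1 := by
  unfold EvenL.chi
  rw [if_neg h]
  split_ifs <;> norm_num

lemma chi_zero {δ : 𝓞 K} {v : HeightOneSpectrum (𝓞 K)} (h : 2 * δ ∈ v.asIdeal) :
    EvenL.chi δ v = 0 := by
  unfold EvenL.chi
  rw [if_pos h]

lemma tw_norm (δ : 𝓞 K) {e : ℕ} {A : HeightOneSpectrum (𝓞 K) → Fin e → ℂ} {θ : ℝ}
    (hA : ∀ v i, ‖A v i‖ ≤ (qv v : ℝ) ^ θ) (v : HeightOneSpectrum (𝓞 K)) (i : Fin e) :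
    ‖tw δ A v i‖ ≤ (qv v : ℝ) ^ θ := by
  unfold tw
  rw [norm_mul]
  have h0 := qv_pos v
  calc ‖EvenL.chi δ v‖ * ‖A v i‖ ≤ 1 * (qv v : ℝ) ^ θ :=
        mul_le_mul (chi_norm δ v) (hA v i) (norm_nonneg _) zero_le_one
    _ = _ := one_mul _

open Classical in
/-- the local factor of one L-function -/
noncomputable def locE (δ : 𝓞 K) {e : ℕ} (A : HeightOneSpectrum (𝓞 K) → Fin e → ℂ)
    (v : HeightOneSpectrum (𝓞 K)) (t : Fin m → kv v) (s : ℂ) : ℂ :=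
  if 2 * δ ∈ v.asIdeal then 1 else
    if Squarefree (mkP m t) then ∏ i, (EF (mkP m t) (tw δ A v i * (qv v : ℂ) ^ (-s - 1 / 2)) *
      (1 - tw δ A v i * (qv v : ℂ) ^ (-s - 1 / 2))) else 1

/-- the product of powers of local factors -/
noncomputable def glE (m : ℕ) (δ : 𝓞 K)
    (A : ∀ k : Fin r, HeightOneSpectrum (𝓞 K) → Fin (d k) → ℂ)
    (n : Fin r → ℤ) (s : Fin r → ℂ) (v : HeightOneSpectrum (𝓞 K))
    (t : Fin m → kv v) : ℂ := ∏ k, locE δ (A k) v t (s k) ^ n k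

/-- the factor of the points at infinity -/
noncomputable def LE (δ : 𝓞 K) (A : ∀ k : Fin r, HeightOneSpectrum (𝓞 K) → Fin (d k) → ℂ)
    (n : Fin r → ℤ) (s : Fin r → ℂ) (v : HeightOneSpectrum (𝓞 K)) : ℂ :=
  ∏ k, (∏ i, (1 - tw δ (A k) v i * (qv v : ℂ) ^ (-(s k) - 1 / 2))) ^ (-n k)

/-- the correction factor -/
noncomputable def hlocE (m : ℕ) (δ : 𝓞 K)
    (A : ∀ k : Fin r, HeightOneSpectrum (𝓞 K) → Fin (d k) → ℂ)
    (n : Fin r → ℤ) (s : Fin r → ℂ) (v : HeightOneSpectrum (𝓞 K)) : ℂ :=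
  fmean (glE m δ A n s v) * (ZT A n s v * LE δ A n s v)

lemma glE_bad {δ : 𝓞 K} (A : ∀ k : Fin r, HeightOneSpectrum (𝓞 K) → Fin (d k) → ℂ)
    (n : Fin r → ℤ) (s : Fin r → ℂ) {v : HeightOneSpectrum (𝓞 K)}
    (h2 : 2 * δ ∈ v.asIdeal) (t : Fin m → kv v) : glE m δ A n s v t = 1 := by
  unfold glE locE
  simp [h2]

lemma LE_bad {δ : 𝓞 K} (A : ∀ k : Fin r, HeightOneSpectrum (𝓞 K) → Fin (d k) → ℂ)
    (n : Fin r → ℤ) (s : Fin r → ℂ) {v : HeightOneSpectrum (𝓞 K)}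
    (h2 : 2 * δ ∈ v.asIdeal) : LE δ A n s v = 1 := by
  unfold LE tw
  rw [chi_zero h2]
  simp

lemma two_notMem {δ : 𝓞 K} {v : HeightOneSpectrum (𝓞 K)} (h : 2 * δ ∉ v.asIdeal) :
    (2 : 𝓞 K) ∉ v.asIdeal := fun h' => h (Ideal.mul_mem_right _ _ h')

lemma delta_notMem {δ : 𝓞 K} {v : HeightOneSpectrum (𝓞 K)} (h : 2 * δ ∉ v.asIdeal) :
    δ ∉ v.asIdeal := fun h' => h (Ideal.mul_mem_left _ _ h')

lemma glE_eq {δ : 𝓞 K} (A : ∀ k : Fin r, HeightOneSpectrum (𝓞 K) → Fin (d k) → ℂ)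
    (n : Fin r → ℤ) (s : Fin r → ℂ) {v : HeightOneSpectrum (𝓞 K)}
    (h2 : 2 * δ ∉ v.asIdeal) (t : Fin m → kv v) :
    glE m δ A n s v t = WE (kv v) (fun a => nT n (eL d a)) m (tT (fun k => tw δ (A k)) s v) t := by
  unfold glE locE WE
  by_cases h : Squarefree (mkP m t)
  · rw [if_pos h]
    have h1 := prod_FinR (d := d) (fun a =>
      (EF (mkP m t) (tw δ (A (ofLex a).1) v (ofLex a).2 * (qv v : ℂ) ^ (-s (ofLex a).1 - 1 / 2)) *
        (1 - tw δ (A (ofLex a).1) v (ofLex a).2 * (qv v : ℂ) ^ (-s (ofLex a).1 - 1 / 2))) ^ nT n a)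
    have h3 : ∏ a : Fin (RL d), (EF (mkP m t) (tT (fun k => tw δ (A k)) s v a) *
        (1 - tT (fun k => tw δ (A k)) s v a)) ^ nT n (eL d a) =
        ∏ a : Fin (RL d), (fun a => (EF (mkP m t) (tw δ (A (ofLex a).1) v (ofLex a).2 *
          (qv v : ℂ) ^ (-s (ofLex a).1 - 1 / 2)) * (1 - tw δ (A (ofLex a).1) v (ofLex a).2 *
          (qv v : ℂ) ^ (-s (ofLex a).1 - 1 / 2))) ^ nT n a) (eL d a) := rfl
    rw [h3, h1]
    refine Finset.prod_congr rfl fun k _ => ?_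
    rw [if_neg h2, if_pos h, ← Finset.prod_zpow]
    rfl
  · rw [if_neg h]
    refine Finset.prod_eq_one fun k _ => ?_
    rw [if_neg h2, if_neg h, one_zpow]

lemma LE_eq {δ : 𝓞 K} (A : ∀ k : Fin r, HeightOneSpectrum (𝓞 K) → Fin (d k) → ℂ)
    (n : Fin r → ℤ) (s : Fin r → ℂ) (v : HeightOneSpectrum (𝓞 K)) :
    LE δ A n s v = ∏ a : Fin (RL d), (1 - tT (fun k => tw δ (A k)) s v a) ^
      (-nT n (eL d a)) := by
  have h1 := prod_FinR (d := d) (fun a =>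
    (1 - tw δ (A (ofLex a).1) v (ofLex a).2 * (qv v : ℂ) ^ (-s (ofLex a).1 - 1 / 2)) ^ (-nT n a))
  have h3 : ∏ a : Fin (RL d), (1 - tT (fun k => tw δ (A k)) s v a) ^ (-nT n (eL d a)) =
      ∏ a : Fin (RL d), (fun a => (1 - tw δ (A (ofLex a).1) v (ofLex a).2 *
        (qv v : ℂ) ^ (-s (ofLex a).1 - 1 / 2)) ^ (-nT n a)) (eL d a) := rfl
  rw [h3, h1]
  unfold LE
  refine Finset.prod_congr rfl fun k _ => ?_
  rw [← Finset.prod_zpow]
  rfl

lemma ZT_tw {δ : 𝓞 K} (A : ∀ k : Fin r, HeightOneSpectrum (𝓞 K) → Fin (d k) → ℂ)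
    (n : Fin r → ℤ) (s : Fin r → ℂ) {v : HeightOneSpectrum (𝓞 K)} (h2 : 2 * δ ∉ v.asIdeal) :
    ZT (fun k => tw δ (A k)) n s v = ZT A n s v := by
  have h1 : ∀ (k l : Fin r) (i : Fin (d k)) (j : Fin (d l)),
      xT (fun k => tw δ (A k)) s v k i * xT (fun k => tw δ (A k)) s v l j =
      xT A s v k i * xT A s v l j := by
    intro k l i j
    unfold xT tw
    linear_combination (A k v i * (qv v : ℂ) ^ (-(s k)) * (A l v j * (qv v : ℂ) ^ (-(s l)))) *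
      chi_sq h2
  unfold ZT lam2 sym2 rs
  simp only [h1]

theorem boundsE {g : ℕ} (hg : 1 ≤ g) {δ : 𝓞 K} (θ : ℝ) (n : Fin r → ℤ)
    {A : ∀ k : Fin r, HeightOneSpectrum (𝓞 K) → Fin (d k) → ℂ}
    (hA : ∀ k v i, ‖A k v i‖ ≤ (qv v : ℝ) ^ θ) : ∃ C : ℝ, 0 ≤ C ∧
    ∀ (v : HeightOneSpectrum (𝓞 K)) (σ : ℝ) (s : Fin r → ℂ), 2 * δ ∉ v.asIdeal →
      cT (2 * g + 1) θ ≤ σ → (∀ k, σ ≤ (s k).re) →
      (∀ t : Fin (2 * (g + 1)) → kv v,
        ‖glE (2 * (g + 1)) δ A n s v t - 1‖ ≤ C * (qv v : ℝ) ^ (θ - σ)) ∧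
      ‖hlocE (2 * (g + 1)) δ A n s v - 1‖ ≤ C * ((qv v : ℝ) ^ (-(1 + σ - θ)) +
        (qv v : ℝ) ^ (-((σ - θ) * (2 * (g : ℝ) + 2))) + (qv v : ℝ) ^ (-(2 : ℝ))) := by
  have hρ2 : 1 / 2 ≤ rhoH (2 * g + 1) := by
    have h1 : (1 : ℝ) / 2 = (2 : ℝ) ^ (-1 : ℝ) := by rw [Real.rpow_neg_one]; norm_num
    rw [h1]
    unfold rhoH
    apply Real.rpow_le_rpow_of_exponent_le (by norm_num)
    have h2 : 1 / (2 * (((2 * g + 1 : ℕ) : ℝ) + 1)) ≤ 1 := by
      rw [div_le_one (by positivity)]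
      have : (0 : ℝ) ≤ ((2 * g + 1 : ℕ) : ℝ) := Nat.cast_nonneg _
      linarith
    linarith
  obtain ⟨C, hC, h⟩ := even_sqf (fun a : Fin (RL d) => nT n (eL d a)) (μ := g + 1) (by omega)
    hρ2 (rhoH_lt_one (2 * g + 1))
  refine ⟨C, hC, fun v σ s h2 hσ hs => ?_⟩
  have hq0 := qv_pos v
  set κ : ℝ := (qv v : ℝ) ^ (θ - σ) with hκ
  have hκ0 : 0 < κ := by positivity
  have hA' : ∀ k v i, ‖tw δ (A k) v i‖ ≤ (qv v : ℝ) ^ θ := fun k v i => tw_norm δ (hA k) v i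
  have hσ' : θ + 1 / (((2 * g + 1 : ℕ) : ℝ) + 1) ≤ σ := hσ
  have h1 := h (kv v) (ringChar_kv (two_notMem h2)) κ hκ0 (kapT_rho v hσ')
    (tT (fun k => tw δ (A k)) s v)
    (fun a => by
      rw [card_kv']
      exact kapT v (hA' _ v _) (hs _))
  obtain ⟨h3, h4⟩ := h1
  constructor
  · intro t
    rw [glE_eq A n s h2 t]
    exact h3 t
  · have e0 : glE (2 * (g + 1)) δ A n s v =
        WE (kv v) (fun a => nT n (eL d a)) (2 * (g + 1)) (tT (fun k => tw δ (A k)) s v) :=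
      funext fun t => glE_eq A n s h2 t
    have e1 : hlocE (2 * (g + 1)) δ A n s v =
        fmean (WE (kv v) (fun a => nT n (eL d a)) (2 * (g + 1)) (tT (fun k => tw δ (A k)) s v)) *
        ((∏ p ∈ prs (RL d), (1 - (Fintype.card (kv v) : ℂ) *
          (tT (fun k => tw δ (A k)) s v p.1 * tT (fun k => tw δ (A k)) s v p.2)) ^
            ex (fun a => nT n (eL d a)) p) *
          ∏ a : Fin (RL d), (1 - tT (fun k => tw δ (A k)) s v a) ^ (-nT n (eL d a))) := by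
      unfold hlocE
      rw [e0, ← ZT_tw A n s h2, ZT_eq (m := 2 * g + 1) hA' hs hσ', card_kv', LE_eq]
    rw [e1]
    refine h4.trans ?_
    rw [card_kv']
    have e2 : κ / (qv v : ℝ) = (qv v : ℝ) ^ (-(1 + σ - θ)) := by
      rw [hκ]
      nth_rewrite 2 [← Real.rpow_one (qv v : ℝ)]
      rw [← Real.rpow_sub hq0]
      congr 1
      ring
    have e3 : κ ^ (2 * (g + 1)) = (qv v : ℝ) ^ (-((σ - θ) * (2 * (g : ℝ) + 2))) := by
      rw [hκ, ← Real.rpow_natCast, ← Real.rpow_mul hq0.le]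
      congr 1
      push_cast
      ring
    have e4 : 1 / (qv v : ℝ) ^ (g + 1) ≤ (qv v : ℝ) ^ (-(2 : ℝ)) := by
      rw [Real.rpow_neg hq0.le, ← one_div]
      apply one_div_le_one_div_of_le (by positivity)
      have h5 : (qv v : ℝ) ^ (2 : ℝ) = (qv v : ℝ) ^ (2 : ℕ) := by norm_cast
      rw [h5]
      exact pow_le_pow_right₀ (qv_one_le v) (by omega)
    rw [e2, e3]
    exact mul_le_mul_of_nonneg_left (by linarith) hC

lemma finite_bad {δ : 𝓞 K} (hδ : δ ≠ 0) :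
    {v : HeightOneSpectrum (𝓞 K) | 2 * δ ∈ v.asIdeal}.Finite := by
  have h := Ideal.finite_factors (R := 𝓞 K) (I := Ideal.span {2 * δ}) (by
    rw [Ne, Ideal.zero_eq_bot, Ideal.span_singleton_eq_bot]
    exact mul_ne_zero two_ne_zero hδ)
  refine h.subset fun v hv => ?_
  change v.asIdeal ∣ Ideal.span {2 * δ}
  rw [Ideal.dvd_span_singleton]
  exact hv

open Classical in
/-- **Uniform estimate** of the correction factors. -/
theorem hlocE_bound {g : ℕ} (hg : 1 ≤ g) {δ : 𝓞 K} (hδ0 : δ ≠ 0) (θ : ℝ) (n : Fin r → ℤ)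
    {A : ∀ k : Fin r, HeightOneSpectrum (𝓞 K) → Fin (d k) → ℂ}
    (hA : ∀ k v i, ‖A k v i‖ ≤ (qv v : ℝ) ^ θ) {ε : ℝ} (hε : 0 < ε) :
    ∃ β : HeightOneSpectrum (𝓞 K) → ℝ, Summable β ∧
      ∀ s : Fin r → ℂ, (∀ k, cT (2 * g + 1) θ + ε < (s k).re) →
        ∀ v, ‖hlocE (2 * (g + 1)) δ A n s v - 1‖ ≤ β v := by
  obtain ⟨C, hC, hb⟩ := boundsE (K := K) hg (δ := δ) θ n hA
  set σ : ℝ := cT (2 * g + 1) θ + ε with hσ
  have hcT : cT (2 * g + 1) θ = θ + 1 / (2 * (g : ℝ) + 2) := by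
    unfold cT
    push_cast
    congr 2
    ring
  have hm2 : (0 : ℝ) < 1 / (2 * (g : ℝ) + 2) := by positivity
  have hx1 : 1 < 1 + σ - θ := by linarith
  have hx2 : 1 < (σ - θ) * (2 * (g : ℝ) + 2) := by
    have : (σ - θ) * (2 * (g : ℝ) + 2) = 1 + ε * (2 * (g : ℝ) + 2) := by
      rw [hσ, hcT]
      field_simp
      ring
    rw [this]
    have : 0 < ε * (2 * (g : ℝ) + 2) := by positivity
    linarith
  set M : ℝ := Lam (rhoH (2 * g + 1)) ^ Np (fun a : Fin (RL d) => nT n (eL d a)) + 1 with hM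
  have hL := one_le_Lam (rhoH (2 * g + 1))
  have hM0 : 0 ≤ M := by positivity
  refine ⟨fun v => C * ((qv v : ℝ) ^ (-(1 + σ - θ)) +
        (qv v : ℝ) ^ (-((σ - θ) * (2 * (g : ℝ) + 2))) + (qv v : ℝ) ^ (-(2 : ℝ))) +
        (if 2 * δ ∈ v.asIdeal then M else 0), ?_, ?_⟩
  · refine Summable.add ((((summable_qv hx1).add (summable_qv hx2)).add
      (summable_qv (by norm_num))).mul_left C) ?_
    refine summable_of_hasFiniteSupport (finite_bad (K := K) hδ0 |>.subset fun v hv => ?_)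
    rw [Function.mem_support] at hv
    by_contra h
    exact hv (if_neg h)
  · intro s hs v
    have hq0 := qv_pos v
    beta_reduce
    by_cases h2 : 2 * δ ∈ v.asIdeal
    · rw [if_pos h2]
      have h1 : fmean (glE (2 * (g + 1)) δ A n s v) = 1 := by
        have : glE (2 * (g + 1)) δ A n s v = fun _ => 1 := funext fun t => glE_bad A n s h2 t
        rw [this, fmean_one]
      have h3 : ‖hlocE (2 * (g + 1)) δ A n s v - 1‖ ≤ M := by
        unfold hlocE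
        rw [h1, one_mul, LE_bad A n s h2, mul_one]
        refine (norm_sub_le _ _).trans ?_
        rw [norm_one]
        exact add_le_add (norm_ZT_le (m := 2 * g + 1) hA (σ := σ) (fun k => (hs k).le)
          (by change cT (2 * g + 1) θ ≤ σ; linarith) n v) le_rfl
      have h4 : 0 ≤ C * ((qv v : ℝ) ^ (-(1 + σ - θ)) +
        (qv v : ℝ) ^ (-((σ - θ) * (2 * (g : ℝ) + 2))) + (qv v : ℝ) ^ (-(2 : ℝ))) := by positivity
      linarith
    · rw [if_neg h2, add_zero]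
      exact (hb v σ s h2 (by linarith) fun k => (hs k).le).2

/-- the bound for the local functions in the region of convergence -/
theorem glE_bound {g : ℕ} (hg : 1 ≤ g) {δ : 𝓞 K} {θ : ℝ} (n : Fin r → ℤ)
    {A : ∀ k : Fin r, HeightOneSpectrum (𝓞 K) → Fin (d k) → ℂ}
    (hA : ∀ k v i, ‖A k v i‖ ≤ (qv v : ℝ) ^ θ) {s : Fin r → ℂ} (hs : s ∈ Om r (1 + θ)) :
    ∃ β : HeightOneSpectrum (𝓞 K) → ℝ, Summable β ∧
      ∀ v (t : Fin (2 * (g + 1)) → kv v), ‖glE (2 * (g + 1)) δ A n s v t - 1‖ ≤ β v := by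
  obtain ⟨C, hC, hb⟩ := boundsE (K := K) hg (δ := δ) θ n hA
  obtain ⟨σ, hσ, hsσ⟩ := exists_sigma' hs
  refine ⟨fun v => C * (qv v : ℝ) ^ (θ - σ), ?_, fun v t => ?_⟩
  · have h1 := summable_qv (K := K) (x := σ - θ) (by linarith)
    refine (h1.mul_left C).congr fun v => ?_
    have : -(σ - θ) = θ - σ := by ring
    rw [this]
  · by_cases h2 : 2 * δ ∈ v.asIdeal
    · rw [glE_bad A n s h2, sub_self, norm_zero]
      positivity
    · have hc := inv_m_le (m := 2 * g + 1) (by omega)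
      exact (hb v σ s h2 (by unfold cT; linarith) hsσ).1 t

end

end Pool.Agent.T6.H9.HE
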