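import Pool.Agent.T6.H9.HE.Asm

/-!
# The limit formula, even degree

Owner helper9.
-/

set_option autoImplicit false
set_option linter.unusedSectionVars false
set_option linter.style.haveILetI false
set_option linter.unusedVariables false

open Filter Topology Polynomial NumberField IsDedekindDomain

namespace Pool.Agent.T6.H9.HE

open Pool.Agent.T6.H9 Pool.Agent.T6.H9.MV Pool.Agent.T6.H9.HY Pool.Agent.T6.H9.TensorL
open Pool.Agent.T6.H9.TP Pool.Agent.H341R2.Sharp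

section

variable {K : Type} [Field K] [NumberField K] {m M r : ℕ} {d : Fin r → ℕ}

lemma ptsE_eq (δ : 𝓞 K) (a : Fin m → 𝓞 K) (v : HeightOneSpectrum (𝓞 K)) (j : ℕ) :
    EvenL.pts δ (poly m a) v j = Pool.Agent.H126T.affPts (kv v) (mkP m (redH v a))
      (Ideal.Quotient.mk v.asIdeal δ) j := by
  unfold EvenL.pts Pool.Agent.H126T.affPts
  rw [← poly_red, card_kv]

lemma ptsInf_eq (δ : 𝓞 K) (v : HeightOneSpectrum (𝓞 K)) (j : ℕ) :
    EvenL.ptsInf δ v j = infPts (kv v) (Ideal.Quotient.mk v.asIdeal δ) j := by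
  unfold EvenL.ptsInf infPts
  rw [card_kv]

lemma mk_delta_ne {δ : 𝓞 K} {v : HeightOneSpectrum (𝓞 K)} (h2 : 2 * δ ∉ v.asIdeal) :
    (Ideal.Quotient.mk v.asIdeal δ : kv v) ≠ 0 := fun h =>
  delta_notMem h2 (Ideal.Quotient.eq_zero_iff_mem.1 h)

lemma chi_eq {δ : 𝓞 K} {v : HeightOneSpectrum (𝓞 K)} (h2 : 2 * δ ∉ v.asIdeal) :
    EvenL.chi δ v = ((quadraticChar (kv v) (Ideal.Quotient.mk v.asIdeal δ) : ℤ) : ℂ) := by
  have h0 := mk_delta_ne h2
  unfold EvenL.chi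
  rw [if_neg h2, quadraticChar_apply, quadraticCharFun, if_neg h0]
  by_cases h : IsSquare (Ideal.Quotient.mk v.asIdeal δ : kv v)
  · rw [if_pos h, if_pos h]
    simp
  · rw [if_neg h, if_neg h]
    simp

lemma tw_pow (δ : 𝓞 K) {e : ℕ} (A : HeightOneSpectrum (𝓞 K) → Fin e → ℂ)
    (v : HeightOneSpectrum (𝓞 K)) (j : ℕ) :
    ∑ i, tw δ A v i ^ (j + 1) = EvenL.chi δ v ^ (j + 1) * ∑ i, A v i ^ (j + 1) := by
  unfold tw
  rw [Finset.mul_sum]
  refine Finset.sum_congr rfl fun i _ => ?_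
  rw [mul_pow]

lemma qpow_shift (v : HeightOneSpectrum (𝓞 K)) (s : ℂ) :
    (Ideal.absNorm v.asIdeal : ℂ) ^ (-(s + 1 / 2)) = (qv v : ℂ) ^ (-s - 1 / 2) := by
  have : -(s + 1 / 2) = -s - 1 / 2 := by ring
  rw [this]

theorem factor_eqE (hm : 1 ≤ m) {δ : 𝓞 K} {θ : ℝ} {e : ℕ}
    {A : HeightOneSpectrum (𝓞 K) → Fin e → ℂ}
    (hA : ∀ v i, ‖A v i‖ ≤ (qv v : ℝ) ^ θ) (a : Fin m → 𝓞 K) (v : HeightOneSpectrum (𝓞 K))
    {s : ℂ} (hs : cT M θ ≤ s.re) :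
    EvenL.factor δ (poly m a) A v (s + 1 / 2) = locE δ A v (redH v a) s := by
  classical
  unfold EvenL.factor locE
  have hsep : ((poly m a).map (Ideal.Quotient.mk v.asIdeal)).Separable ↔
      Squarefree (mkP m (redH v a)) := by
    rw [poly_red]
    exact PerfectField.separable_iff_squarefree
  by_cases h2 : 2 * δ ∈ v.asIdeal
  · rw [if_pos (Or.inl h2), if_pos h2]
  · rw [if_neg h2]
    by_cases h3 : Squarefree (mkP m (redH v a))
    · rw [if_pos h3, if_neg (by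
        rintro (h | h)
        · exact h2 h
        · exact h (hsep.2 h3))]
      rw [prod_EE h2 hm _ h3 (tw δ A v) ((qv v : ℂ) ^ (-s - 1 / 2)) fun i =>
        kapT_lt_one (m := M) v (tw_norm δ hA v i) hs]
      congr 1
      refine tsum_congr fun j => ?_
      have hT := trace_even (ringChar_kv (two_notMem h2)) (mkP m (redH v a)) (mk_delta_ne h2)
        (j := j + 1) (Nat.succ_ne_zero j)
      rw [card_kv'] at hT
      have hT' : (((Ideal.absNorm v.asIdeal : ℤ) ^ (j + 1) + 1 -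
        ((EvenL.pts δ (poly m a) v (j + 1) : ℤ) + (EvenL.ptsInf δ v (j + 1) : ℤ)) : ℤ) : ℂ) =
          -(EvenL.chi δ v ^ (j + 1) * ((T (mkP m (redH v a)) (j + 1) : ℂ) + 1)) := by
        rw [ptsE_eq, ptsInf_eq, chi_eq h2]
        have hq : (Ideal.absNorm v.asIdeal : ℤ) = (qv v : ℤ) := rfl
        rw [hq, hT]
        push_cast
        ring
      rw [hT', tw_pow, qpow_shift]
      ring
    · rw [if_neg h3, if_pos (Or.inr fun h => h3 (hsep.1 h))]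

/-- the Euler product of one L-function -/
lemma hasProd_LfE {g : ℕ} (hg : 1 ≤ g) {δ : 𝓞 K} {θ : ℝ} {e : ℕ}
    {A : HeightOneSpectrum (𝓞 K) → Fin e → ℂ}
    (hA : ∀ v i, ‖A v i‖ ≤ (qv v : ℝ) ^ θ) (a : Fin (2 * (g + 1)) → 𝓞 K) {s : ℂ}
    (hs : 1 + θ < s.re) :
    HasProd (fun v => locE δ A v (redH v a) s)
      (EvenL.Lfun δ (poly (2 * (g + 1)) a) A (s + 1 / 2)) ∧
      EvenL.Lfun δ (poly (2 * (g + 1)) a) A (s + 1 / 2) ≠ 0 := by
  have hc := inv_m_le (m := 2 * g + 1) (by omega)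
  have hs' : cT (2 * g + 1) θ ≤ s.re := by unfold cT; linarith
  obtain ⟨β, hβ, hb⟩ := glE_bound (K := K) hg (δ := δ) (r := 1) (d := fun _ => e) (θ := θ)
    (fun _ => 1) (A := fun _ => A) (fun _ => hA) (s := fun _ => s) (fun _ => hs)
  have hb' : ∀ v, ‖locE δ A v (redH v a) s - 1‖ ≤ β v := by
    intro v
    have := hb v (redH v a)
    unfold glE at this
    simpa using this
  have h1 : EvenL.Lfun δ (poly (2 * (g + 1)) a) A (s + 1 / 2) =
      ∏' v, locE δ A v (redH v a) s := by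
    unfold EvenL.Lfun
    exact tprod_congr fun v => factor_eqE (M := 2 * g + 1) (by omega) hA a v hs'
  rw [h1]
  exact ⟨(multipliable_of_bound hβ hb').hasProd,
    tprod_ne_zero' hβ hb' fun v => locE_ne_zero (M := 2 * g + 1) hA v _ hs'⟩

lemma tprod_glE {g : ℕ} (hg : 1 ≤ g) {δ : 𝓞 K} {θ : ℝ} (n : Fin r → ℤ)
    {A : ∀ k : Fin r, HeightOneSpectrum (𝓞 K) → Fin (d k) → ℂ}
    (hA : ∀ k v i, ‖A k v i‖ ≤ (qv v : ℝ) ^ θ) {s : Fin r → ℂ} (hs : s ∈ Om r (1 + θ))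
    (a : Fin (2 * (g + 1)) → 𝓞 K) :
    ∏' v, glE (2 * (g + 1)) δ A n s v (redH v a) =
      ∏ k, EvenL.Lfun δ (poly (2 * (g + 1)) a) (A k) (s k + 1 / 2) ^ n k := by
  have h1 : ∀ k ∈ (Finset.univ : Finset (Fin r)),
      HasProd (fun v => locE δ (A k) v (redH v a) (s k) ^ n k)
        (EvenL.Lfun δ (poly (2 * (g + 1)) a) (A k) (s k + 1 / 2) ^ n k) := by
    intro k _
    obtain ⟨h2, h3⟩ := hasProd_LfE hg (δ := δ) (hA k) a (hs k)
    exact hasProd_zpow h2 h3 (n k)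
  have h2 := hasProd_prod h1
  exact h2.tprod_eq

/-! ### the twisted L-functions -/

lemma twz_norm {θ : ℝ} {δ : 𝓞 K} {e : ℕ} {A : HeightOneSpectrum (𝓞 K) → Fin e → ℂ}
    (hA : ∀ v i, ‖A v i‖ ≤ (qv v : ℝ) ^ θ) (v : HeightOneSpectrum (𝓞 K)) (i : Fin e) {σ : ℝ}
    {s : ℂ} (hs : σ ≤ s.re) :
    ‖tw δ A v i * (qv v : ℂ) ^ (-s - 1 / 2)‖ ≤ (qv v : ℝ) ^ (-(σ + 1 / 2 - θ)) := by
  have h1 : -s - 1 / 2 = -(s + 1 / 2) := by ring
  have h2 := xT_norm (σ := σ + 1 / 2) v (tw_norm δ hA v i) (s := s + 1 / 2) (by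
    simp only [Complex.add_re]
    norm_num
    linarith)
  rw [h1]
  have h3 : θ - (σ + 1 / 2) = -(σ + 1 / 2 - θ) := by ring
  rwa [h3] at h2

lemma hasProd_tw {θ : ℝ} {δ : 𝓞 K} {e : ℕ} {A : HeightOneSpectrum (𝓞 K) → Fin e → ℂ}
    (hA : ∀ v i, ‖A v i‖ ≤ (qv v : ℝ) ^ θ) {s : ℂ} (hs : 1 / 2 + θ < s.re) :
    HasProd (fun v => (∏ i, (1 - tw δ A v i * (qv v : ℂ) ^ (-s - 1 / 2)))⁻¹)
      (EvenL.Ltw δ A (s + 1 / 2)) ∧ EvenL.Ltw δ A (s + 1 / 2) ≠ 0 := by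
  have h := hasProd_inv_fin (Finset.univ : Finset (Fin e))
    (fun (i : Fin e) v => tw δ A v i * (qv v : ℂ) ^ (-s - 1 / 2))
    (summable_qv (K := K) (x := s.re + 1 / 2 - θ) (by linarith))
    (fun v => half_bound v (by linarith)) fun i v => twz_norm hA v i le_rfl
  have h1 : EvenL.Ltw δ A (s + 1 / 2) =
      ∏' v : HeightOneSpectrum (𝓞 K), (∏ i, (1 - tw δ A v i * (qv v : ℂ) ^ (-s - 1 / 2)))⁻¹ := by
    unfold EvenL.Ltw
    refine tprod_congr fun v => ?_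
    rw [qpow_shift]
    rfl
  rw [h1]
  exact h

/-- the polar part -/
noncomputable def polE (δ : 𝓞 K) (A : ∀ k : Fin r, HeightOneSpectrum (𝓞 K) → Fin (d k) → ℂ)
    (n : Fin r → ℤ) (s : Fin r → ℂ) : ℂ :=
  (∏ k, EvenL.Ltw δ (A k) (s k + 1 / 2) ^ (-n k)) * polT A n s

lemma hasProd_LEinv {θ : ℝ} {δ : 𝓞 K}
    {A : ∀ k : Fin r, HeightOneSpectrum (𝓞 K) → Fin (d k) → ℂ}
    (hA : ∀ k v i, ‖A k v i‖ ≤ (qv v : ℝ) ^ θ) (n : Fin r → ℤ)
    {s : Fin r → ℂ} (hs : s ∈ Om r (1 / 2 + θ)) :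
    HasProd (fun v : HeightOneSpectrum (𝓞 K) => (LE δ A n s v)⁻¹)
      (∏ k, EvenL.Ltw δ (A k) (s k + 1 / 2) ^ (-n k)) := by
  have e1 : ∀ k ∈ (Finset.univ : Finset (Fin r)),
      HasProd (fun v => (∏ i, (1 - tw δ (A k) v i * (qv v : ℂ) ^ (-(s k) - 1 / 2)))⁻¹ ^ (-n k))
        (EvenL.Ltw δ (A k) (s k + 1 / 2) ^ (-n k)) := by
    intro k _
    obtain ⟨a1, a2⟩ := hasProd_tw (δ := δ) (hA k) (hs k)
    exact hasProd_zpow a1 a2 _
  refine (hasProd_prod e1).congr_fun fun v => ?_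
  unfold LE
  rw [← Finset.prod_inv_distrib]
  refine Finset.prod_congr rfl fun k _ => ?_
  rw [inv_zpow]

/-- the factorisation of the limit -/
lemma limit_eqE {g : ℕ} (hg : 1 ≤ g) {δ : 𝓞 K} (hδ0 : δ ≠ 0) {θ : ℝ} (n : Fin r → ℤ)
    {A : ∀ k : Fin r, HeightOneSpectrum (𝓞 K) → Fin (d k) → ℂ}
    (hA : ∀ k v i, ‖A k v i‖ ≤ (qv v : ℝ) ^ θ)
    {s : Fin r → ℂ} (hs : s ∈ Om r (1 + θ)) :
    ∏' v : HeightOneSpectrum (𝓞 K), fmean (glE (2 * (g + 1)) δ A n s v) =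
      polE δ A n s * HfE (2 * (g + 1)) δ A n s := by
  have hc := inv_m_le (m := 2 * g + 1) (by omega)
  obtain ⟨β, hβ, hb⟩ := hlocE_bound (K := K) hg hδ0 θ n hA (ε := 1 / 2) (by norm_num)
  have h1 : HasProd (fun v : HeightOneSpectrum (𝓞 K) => hlocE (2 * (g + 1)) δ A n s v)
      (HfE (2 * (g + 1)) δ A n s) :=
    (multipliable_of_bound hβ fun v => hb s (fun k => by
      unfold cT
      linarith [hs k]) v).hasProd
  have h2 := ((hasProd_LEinv (δ := δ) hA n (s := s) (fun k => by linarith [hs k])).mul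
    (hasProd_ZT hA n (s := s) (fun k => by linarith [hs k]))).mul h1
  change HasProd _ (polE δ A n s * HfE (2 * (g + 1)) δ A n s) at h2
  rw [← h2.tprod_eq]
  refine tprod_congr fun v => ?_
  have hs' : ∀ k, cT (2 * g + 1) θ ≤ (s k).re := fun k => by
    unfold cT
    linarith [hs k]
  have hZ : ZT A n s v ≠ 0 := ZT_ne_zero (m := 2 * g + 1) hA (σ := cT (2 * g + 1) θ)
    hs' (by unfold cT; exact le_rfl) n v
  have hL : LE δ A n s v ≠ 0 := LE_ne (M := 2 * g + 1) hA n v hs'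
  unfold hlocE
  field_simp

/-! ### holomorphy of the polar part -/

lemma diff_Ltw {θ : ℝ} {δ : 𝓞 K} {e : ℕ} {A : HeightOneSpectrum (𝓞 K) → Fin e → ℂ}
    (hA : ∀ v i, ‖A v i‖ ≤ (qv v : ℝ) ^ θ) (k : Fin r) :
    DifferentiableOn ℂ (fun s : Fin r → ℂ => EvenL.Ltw δ A (s k + 1 / 2)) (Om r (1 / 2 + θ)) := by
  intro x hx
  obtain ⟨ε, hε, hxε⟩ := exists_delta hx
  obtain ⟨C, hC, h⟩ := exists_prod_zpow_bound' (Finset.univ : Finset (Fin e))
    (fun _ => (-1 : ℤ)) (Λ := 2) (by norm_num)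
  set F : HeightOneSpectrum (𝓞 K) → (Fin r → ℂ) → ℂ := fun v s =>
    (∏ i, (1 - tw δ A v i * (qv v : ℂ) ^ (-(s k) - 1 / 2)))⁻¹ with hF
  have hsmall : ∀ v, ∀ s ∈ Om r (1 / 2 + θ), ∀ i,
      ‖tw δ A v i * (qv v : ℂ) ^ (-(s k) - 1 / 2)‖ ≤ 1 / 2 := by
    intro v s hs i
    have hk := hs k
    refine (twz_norm hA v i le_rfl).trans (half_bound v ?_)
    linarith
  have hb : ∀ v, ∀ s ∈ Om r (1 / 2 + θ + ε), ‖F v s - 1‖ ≤ C * (qv v : ℝ) ^ (-(1 + ε)) := by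
    intro v s hs
    have hq0 := qv_pos v
    have hs' : s ∈ Om r (1 / 2 + θ) := fun j => by linarith [hs j]
    have e1 : F v s = ∏ i, (1 - tw δ A v i * (qv v : ℂ) ^ (-(s k) - 1 / 2)) ^ (-1 : ℤ) := by
      rw [hF]
      simp only [zpow_neg, zpow_one]
      rw [Finset.prod_inv_distrib]
    rw [e1]
    refine h _ ((qv v : ℝ) ^ (-(1 + ε))) (by positivity) fun i _ => ?_
    have h2 := hsmall v s hs' i
    have h3 : ‖(1 : ℂ)‖ - ‖tw δ A v i * (qv v : ℂ) ^ (-(s k) - 1 / 2)‖ ≤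
      ‖1 - tw δ A v i * (qv v : ℂ) ^ (-(s k) - 1 / 2)‖ := norm_sub_norm_le _ _
    have h4 := norm_sub_le (1 : ℂ) (tw δ A v i * (qv v : ℂ) ^ (-(s k) - 1 / 2))
    rw [norm_one] at h3 h4
    refine ⟨by norm_num; linarith, by linarith, ?_⟩
    have h5 : (1 : ℂ) - tw δ A v i * (qv v : ℂ) ^ (-(s k) - 1 / 2) - 1 =
      -(tw δ A v i * (qv v : ℂ) ^ (-(s k) - 1 / 2)) := by ring
    rw [h5, norm_neg]
    have h6 := twz_norm (δ := δ) hA v i (σ := 1 / 2 + θ + ε) (hs k).le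
    have h7 : 1 / 2 + θ + ε + 1 / 2 - θ = 1 + ε := by ring
    rwa [h7] at h6
  have h1 : TendstoUniformlyOn (fun (D : Finset (HeightOneSpectrum (𝓞 K))) s => ∏ v ∈ D, F v s)
      (fun s => ∏' v, F v s) atTop (Om r (1 / 2 + θ + ε)) :=
    tendstoUniformlyOn_prod ((summable_qv (K := K) (x := 1 + ε) (by linarith)).mul_left C) hb
  have h1' : TendstoUniformlyOn (fun (D : Finset (HeightOneSpectrum (𝓞 K))) s => ∏ v ∈ D, F v s)
      (fun s : Fin r → ℂ => EvenL.Ltw δ A (s k + 1 / 2)) atTop (Om r (1 / 2 + θ + ε)) := by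
    refine h1.congr_right fun s hs => ?_
    exact (hasProd_tw (δ := δ) hA (s := s k) (by linarith [hs k])).1.tprod_eq
  have h2 := differentiableOn_of_tendstoUniformlyOn (U := Om r (1 / 2 + θ + ε))
    (V := Om r (1 / 2 + θ + ε + ε)) hε (isOpen_Om _ _) (fun y hy => ball_Om hy) (fun D => by
      intro y hy
      have hy' : y ∈ Om r (1 / 2 + θ) := fun k => by linarith [hy k]
      refine (diff_prod D fun v _ => ?_).differentiableWithinAt
      refine (diff_LEf A v k y).inv ?_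
      refine Finset.prod_ne_zero_iff.2 fun i _ => one_sub_ne ?_
      exact (hsmall v y hy' i).trans_lt (by norm_num)) h1'
  exact ((h2 x hxε).differentiableAt ((isOpen_Om _ _).mem_nhds hxε)).differentiableWithinAt

theorem differentiableOn_polE {θ : ℝ} (δ : 𝓞 K)
    {A : ∀ k : Fin r, HeightOneSpectrum (𝓞 K) → Fin (d k) → ℂ}
    (hA : ∀ k v i, ‖A k v i‖ ≤ (qv v : ℝ) ^ θ) (n : Fin r → ℤ) :
    DifferentiableOn ℂ (polE δ A n) (Om r (1 / 2 + θ)) := by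
  intro x hx
  have hnh := (isOpen_Om r (1 / 2 + θ)).mem_nhds hx
  have h1 : DifferentiableAt ℂ (fun s : Fin r → ℂ =>
      ∏ k, EvenL.Ltw δ (A k) (s k + 1 / 2) ^ (-n k)) x := by
    refine diff_prod _ fun k _ => ?_
    exact ((diff_Ltw (δ := δ) (hA k) k x hx).differentiableAt hnh).zpow
      (Or.inl (hasProd_tw (δ := δ) (hA k) (hx k)).2)
  have h2 := (differentiableOn_polT hA n x hx).differentiableAt hnh
  exact (h1.mul h2).differentiableWithinAt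

end

end Pool.Agent.T6.H9.HE
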