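import Pool.Agent.T6.H9.HE.Even

/-!
# The squarefree condition, even degree

Owner helper9.
-/

set_option autoImplicit false
set_option linter.unusedSectionVars false
set_option linter.style.haveILetI false
set_option linter.unusedVariables false

open Filter Topology Asymptotics Finset Polynomial

namespace Pool.Agent.T6.H9.HE

open Pool.Agent.T6.H9.MV Pool.Agent.T6.H9.HY Pool.Agent.H341R2.Sharp

section

variable {F : Type} [Field F] [Fintype F] [DecidableEq F] {r : ℕ}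

open Classical in
/-- the local weights: the Euler factor is omitted if the polynomial is not squarefree -/
noncomputable def WE (F : Type) [Field F] [Fintype F] [DecidableEq F] (n : Fin r → ℤ) (m : ℕ)
    (t : Fin r → ℂ) (a : Fin m → F) : ℂ :=
  if Squarefree (mkP m a) then ∏ k, (EF (mkP m a) (t k) * (1 - t k)) ^ n k else 1

lemma not_sqf_of_sq {f : F[X]} (hf : f.Monic) (hd : 1 ≤ f.natDegree) (h : IsSq f) :
    ¬ Squarefree f := by
  obtain ⟨g, hg, he⟩ := sq_monic hf h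
  intro hs
  have h1 : IsUnit g := hs g ⟨1, by rw [he, sq, mul_one]⟩
  have h2 := natDegree_eq_zero_of_isUnit h1
  rw [he, natDegree_pow, h2] at hd
  omega

end

open Classical in
/-- **The local estimate** with the squarefree condition, even degree. -/
theorem even_sqf {r : ℕ} (n : Fin r → ℤ) {μ : ℕ} (hμ : 1 ≤ μ) {ρ : ℝ} (hρ2 : 1 / 2 ≤ ρ)
    (hρ1 : ρ < 1) :
    ∃ C : ℝ, 0 ≤ C ∧ ∀ (F : Type) [Field F] [Fintype F] [DecidableEq F], ringChar F ≠ 2 →
      ∀ κ : ℝ, 0 < κ → κ ≤ ρ ^ 2 → ∀ t : Fin r → ℂ,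
        (∀ k, √(Fintype.card F : ℝ) * ‖t k‖ ≤ κ) →
        (∀ a, ‖WE F n (2 * μ) t a - 1‖ ≤ C * κ) ∧
        ‖fmean (WE F n (2 * μ) t) *
          ((∏ p ∈ prs r, (1 - (Fintype.card F : ℂ) * (t p.1 * t p.2)) ^ ex n p) *
            ∏ k, (1 - t k) ^ (-n k)) - 1‖ ≤
          C * (κ / Fintype.card F + κ ^ (2 * μ) + 1 / (Fintype.card F : ℝ) ^ μ) := by
  obtain ⟨C₁, hC₁, h1⟩ := even_local n hμ hρ2 hρ1
  have hρ0 : 0 < ρ := by linarith
  have h1ρ : 0 < 1 - ρ := by linarith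
  have hρ2' : ρ ^ 2 ≤ ρ := by nlinarith
  set A : ℝ := 5 * (2 * μ : ℕ) with hA
  have hA0 : 0 ≤ A := by positivity
  set E : ℝ := Real.exp (A / (1 - ρ)) with hE
  have hE1 : 1 ≤ E := Real.one_le_exp (by positivity)
  set Λ : ℝ := E * (5 / 2) with hΛ
  have hΛ1 : 1 ≤ Λ := by
    rw [hΛ]
    linarith
  obtain ⟨C₂, hC₂, h2⟩ := exists_prod_zpow_bound n hΛ1
  have hL := one_le_Lam ρ
  set B₁ : ℝ := A / (1 - ρ) * E * (8 / 5) + 1 with hB1
  have hB10 : 0 ≤ B₁ := by positivity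
  set C₃ : ℝ := C₂ * B₁ with hC3
  have hC₃ : 0 ≤ C₃ := by positivity
  set M : ℝ := Lam ρ ^ Np n * (5 / 2) ^ Nt n with hM
  have hM0 : 0 ≤ M := by positivity
  refine ⟨C₁ + C₃ + (2 * C₃ + 1) * M, by positivity, ?_⟩
  intro F _ _ _ hF κ hκ hκρ t ht
  have hq0 : (0 : ℝ) < Fintype.card F := by exact_mod_cast Fintype.card_pos
  have hq3 : (3 : ℝ) ≤ Fintype.card F := by exact_mod_cast three_le hF
  have hsq0 : 0 < √(Fintype.card F : ℝ) := Real.sqrt_pos.2 hq0
  have hsq53 : (5 : ℝ) / 3 ≤ √(Fintype.card F : ℝ) := by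
    apply Real.le_sqrt_of_sq_le
    norm_num
    linarith
  have hκ1 : κ ≤ 1 := by nlinarith
  have htk : ∀ k, ‖t k‖ ≤ κ ∧ ‖t k‖ ≤ 3 / 5 := by
    intro k
    have h3 := ht k
    have h4 : 0 ≤ ‖t k‖ := norm_nonneg _
    constructor <;> nlinarith
  have h1t : ∀ k, 2 / 5 ≤ ‖1 - t k‖ ∧ ‖1 - t k‖ ≤ 8 / 5 := by
    intro k
    have h3 := (htk k).2
    constructor
    · have h4 : ‖(1 : ℂ)‖ - ‖t k‖ ≤ ‖1 - t k‖ := norm_sub_norm_le _ _
      rw [norm_one] at h4
      linarith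
    · have h4 := norm_sub_le (1 : ℂ) (t k)
      rw [norm_one] at h4
      linarith
  have hmd : ∀ a : Fin (2 * μ) → F, 1 ≤ (mkP (2 * μ) a).natDegree := fun a => by
    rw [mkP_natDegree]
    omega
  have hTn : ∀ a : Fin (2 * μ) → F, ¬ IsSq (mkP (2 * μ) a) → ∀ j, 1 ≤ j →
      ‖(T (mkP (2 * μ) a) j : ℂ)‖ ≤ A * (√(Fintype.card F : ℝ)) ^ j := by
    intro a ha j hj
    have := T_nonsq hF (mkP_monic (2 * μ) a) (hmd a) ha hj
    rwa [mkP_natDegree] at this
  -- the product for polynomials which are not squares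
  have hP : ∀ a : Fin (2 * μ) → F, ¬ IsSq (mkP (2 * μ) a) →
      ‖∏ k, (EF (mkP (2 * μ) a) (t k) * (1 - t k)) ^ n k - 1‖ ≤ C₃ * κ := by
    intro a ha
    have h3 := h2 (fun k => EF (mkP (2 * μ) a) (t k) * (1 - t k)) (B₁ * κ) (by positivity)
      fun k => by
      have hk := ht k
      obtain ⟨b1, b2⟩ := EF_bnd hA0 (Real.sqrt_nonneg _) (hTn a ha)
        (hk.trans (hκρ.trans hρ2')) hρ1
      have b3 := EF_sub hA0 (Real.sqrt_nonneg _) (hTn a ha) hk (hκρ.trans hρ2') hρ1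
      obtain ⟨c1, c2⟩ := h1t k
      refine ⟨?_, ?_, ?_⟩
      · rw [norm_mul, hΛ, mul_inv]
        exact mul_le_mul b1 (by norm_num; linarith) (by norm_num) (norm_nonneg _)
      · rw [norm_mul, hΛ]
        exact mul_le_mul b2 (by linarith) (norm_nonneg _) (by positivity)
      · have e1 : EF (mkP (2 * μ) a) (t k) * (1 - t k) - 1 =
            (EF (mkP (2 * μ) a) (t k) - 1) * (1 - t k) - t k := by ring
        rw [e1]
        refine (norm_sub_le _ _).trans ?_
        rw [norm_mul]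
        calc ‖EF (mkP (2 * μ) a) (t k) - 1‖ * ‖1 - t k‖ + ‖t k‖ ≤
            (A / (1 - ρ) * E * κ) * (8 / 5) + κ :=
              add_le_add (mul_le_mul b3 c2 (norm_nonneg _) (by positivity)) (htk k).1
          _ = B₁ * κ := by rw [hB1]; ring
    refine h3.trans (le_of_eq ?_)
    rw [hC3]
    ring
  have hsqf : ∀ a : Fin (2 * μ) → F, Squarefree (mkP (2 * μ) a) → ¬ IsSq (mkP (2 * μ) a) :=
    fun a h h' => not_sqf_of_sq (mkP_monic _ a) (hmd a) h' h
  have hW : ∀ a : Fin (2 * μ) → F, ‖WE F n (2 * μ) t a - 1‖ ≤ C₃ * κ := by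
    intro a
    unfold WE
    split_ifs with h
    · exact hP a (hsqf a h)
    · rw [sub_self, norm_zero]
      positivity
  constructor
  · intro a
    refine (hW a).trans ?_
    have : 0 ≤ (C₁ + (2 * C₃ + 1) * M) * κ := by positivity
    nlinarith
  · have h3 := h1 F hF κ hκ hκρ t ht
    set L : ℂ := ∏ k, (1 - t k) ^ n k with hLd
    set G : (Fin (2 * μ) → F) → ℂ := fun a => if IsSq (mkP (2 * μ) a) then 0 else
        ∏ k, EF (mkP (2 * μ) a) (t k) ^ n k with hG
    have hLinv : ∏ k, (1 - t k) ^ (-n k) = L⁻¹ := by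
      rw [hLd, ← Finset.prod_inv_distrib]
      exact Finset.prod_congr rfl fun k _ => zpow_neg _ _
    have hne : ∀ k, 1 - t k ≠ 0 := fun k => norm_pos_iff.1 (lt_of_lt_of_le (by norm_num) (h1t k).1)
    have hL0 : L ≠ 0 := by
      rw [hLd]
      exact Finset.prod_ne_zero_iff.2 fun k _ => zpow_ne_zero _ (hne k)
    have hLb : ‖L⁻¹‖ ≤ (5 / 2) ^ Nt n := by
      rw [← hLinv, norm_prod, Nt, ← Finset.prod_pow_eq_pow_sum]
      refine Finset.prod_le_prod (fun _ _ => norm_nonneg _) fun k _ => ?_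
      obtain ⟨c1, c2⟩ := h1t k
      have := norm_zpow_le (z := 1 - t k) (Λ := 5 / 2) (by norm_num; linarith) (by linarith)
        (by norm_num) (-n k)
      rwa [Int.natAbs_neg] at this
    -- decomposition
    have hdec : fmean (WE F n (2 * μ) t) = fmean G * L -
        (fmean (fun a => nsq F (2 * μ) a * (if IsSq (mkP (2 * μ) a) then (0 : ℂ) else
          ∏ k, (EF (mkP (2 * μ) a) (t k) * (1 - t k)) ^ n k - 1)) -
          fmean (fun a : Fin (2 * μ) → F => if IsSq (mkP (2 * μ) a) then (1 : ℂ) else 0)) := by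
      rw [← fmean_sub, ← fmean_mul_const, ← fmean_sub]
      congr 1
      funext a
      have e1 : (∏ k, EF (mkP (2 * μ) a) (t k) ^ n k) * L =
          ∏ k, (EF (mkP (2 * μ) a) (t k) * (1 - t k)) ^ n k := by
        rw [hLd, ← Finset.prod_mul_distrib]
        exact Finset.prod_congr rfl fun k _ => (mul_zpow _ _ _).symm
      rw [hG]
      unfold WE nsq
      by_cases hs : Squarefree (mkP (2 * μ) a)
      · have hn := hsqf a hs
        simp only [if_pos hs, if_neg hn, e1]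
        push_cast
        ring
      · by_cases hn : IsSq (mkP (2 * μ) a)
        · simp only [if_neg hs, if_pos hn]
          push_cast
          ring
        · simp only [if_neg hs, if_neg hn, e1]
          push_cast
          ring
    set X₁ : ℂ := fmean (fun a => nsq F (2 * μ) a * (if IsSq (mkP (2 * μ) a) then (0 : ℂ) else
          ∏ k, (EF (mkP (2 * μ) a) (t k) * (1 - t k)) ^ n k - 1)) with hX1
    set X₂ : ℂ := fmean (fun a : Fin (2 * μ) → F => if IsSq (mkP (2 * μ) a) then (1 : ℂ) else 0)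
      with hX2
    have hb1 : ‖X₁‖ ≤ 2 / (Fintype.card F : ℝ) * (C₃ * κ) := by
      rw [hX1]
      refine norm_fmean_le_nsq (by omega) (by positivity) fun a => ?_
      rw [norm_mul, Complex.norm_real, Real.norm_eq_abs, abs_of_nonneg (nsq_nonneg _ a)]
      refine mul_le_mul_of_nonneg_left ?_ (nsq_nonneg _ a)
      split_ifs with hn
      · rw [norm_zero]
        positivity
      · exact hP a hn
    have hb2 : ‖X₂‖ ≤ 1 / (Fintype.card F : ℝ) ^ μ := by
      have := norm_fmean_sq (F := F) (μ := μ) (g := fun _ => (1 : ℂ)) (β := 1) zero_le_one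
        (fun a _ => by simp)
      exact this
    have h6 : ‖∏ p ∈ prs r, (1 - (Fintype.card F : ℂ) * (t p.1 * t p.2)) ^ ex n p‖ ≤
        Lam ρ ^ Np n := by
      rw [norm_prod, Np, ← Finset.prod_pow_eq_pow_sum]
      refine Finset.prod_le_prod (fun _ _ => norm_nonneg _) fun p _ => ?_
      obtain ⟨b1, b2⟩ := pair_Lam hq0 ((ht p.1).trans (hκρ.trans hρ2'))
        ((ht p.2).trans (hκρ.trans hρ2')) hρ1
      have hqc : ((Fintype.card F : ℕ) : ℂ) = (((Fintype.card F : ℕ) : ℝ) : ℂ) := by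
        push_cast; rfl
      rw [hqc]
      exact norm_zpow_le b1 b2 hL _
    set Z : ℂ := ∏ p ∈ prs r, (1 - (Fintype.card F : ℂ) * (t p.1 * t p.2)) ^ ex n p with hZ
    rw [hdec, hLinv]
    have h7 : (fmean G * L - (X₁ - X₂)) * (Z * L⁻¹) - 1 =
        (fmean G * Z - 1) - (X₁ - X₂) * (Z * L⁻¹) := by
      field_simp
      ring
    rw [h7]
    refine (norm_sub_le _ _).trans ?_
    rw [norm_mul, norm_mul]
    have h8 : ‖X₁ - X₂‖ * (‖Z‖ * ‖L⁻¹‖) ≤
        (2 / (Fintype.card F : ℝ) * (C₃ * κ) + 1 / (Fintype.card F : ℝ) ^ μ) * M := by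
      refine mul_le_mul ((norm_sub_le _ _).trans (add_le_add hb1 hb2)) ?_ (by positivity)
        (by positivity)
      rw [hM]
      exact mul_le_mul h6 hLb (norm_nonneg _) (by positivity)
    have h9 : κ ^ 2 / (Fintype.card F : ℝ) ≤ κ / (Fintype.card F : ℝ) := by
      apply div_le_div_of_nonneg_right _ hq0.le
      nlinarith
    have h10 : 0 ≤ κ / (Fintype.card F : ℝ) := by positivity
    have h11 : 0 ≤ κ ^ (2 * μ) := by positivity
    have h12 : 0 ≤ 1 / (Fintype.card F : ℝ) ^ μ := by positivity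
    calc ‖fmean G * Z - 1‖ + ‖X₁ - X₂‖ * (‖Z‖ * ‖L⁻¹‖) ≤
          C₁ * (κ ^ 2 / Fintype.card F + κ ^ (2 * μ) + 1 / (Fintype.card F : ℝ) ^ μ) +
          (2 / (Fintype.card F : ℝ) * (C₃ * κ) + 1 / (Fintype.card F : ℝ) ^ μ) * M :=
          add_le_add h3 h8
      _ = C₁ * (κ ^ 2 / Fintype.card F + κ ^ (2 * μ) + 1 / (Fintype.card F : ℝ) ^ μ) +
          (2 * C₃ * (κ / Fintype.card F) + 1 * (1 / (Fintype.card F : ℝ) ^ μ)) * M := by ring
      _ ≤ C₁ * (κ / Fintype.card F + κ ^ (2 * μ) + 1 / (Fintype.card F : ℝ) ^ μ) +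
          (2 * C₃ * (κ / Fintype.card F + κ ^ (2 * μ) + 1 / (Fintype.card F : ℝ) ^ μ) +
            1 * (κ / Fintype.card F + κ ^ (2 * μ) + 1 / (Fintype.card F : ℝ) ^ μ)) * M := by
          gcongr <;> linarith
      _ ≤ (C₁ + C₃ + (2 * C₃ + 1) * M) *
          (κ / Fintype.card F + κ ^ (2 * μ) + 1 / (Fintype.card F : ℝ) ^ μ) := by
          have : 0 ≤ C₃ * (κ / Fintype.card F + κ ^ (2 * μ) + 1 / (Fintype.card F : ℝ) ^ μ) := by
            positivity
          linarith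

end Pool.Agent.T6.H9.HE
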