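import Pool.Agent.T6.H9.HY.Sqf

/-!
# Taylor polynomials; bounds for general polynomials

Owner helper9.
-/

set_option autoImplicit false
set_option linter.unusedSectionVars false
set_option linter.style.haveILetI false
set_option linter.unusedVariables false

open Filter Topology Asymptotics Finset Polynomial

namespace Pool.Agent.T6.H9.HE

open Pool.Agent.T6.H9.MV Pool.Agent.T6.H9.HY Pool.Agent.H341R2.Sharp

/-- Taylor polynomials with Cauchy estimates -/
lemma taylor_poly {G : ℂ → ℂ} {r₀ M : ℝ} (hr : 0 < r₀)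
    (hG : DifferentiableOn ℂ G (Metric.closedBall 0 r₀))
    (hM : ∀ w ∈ Metric.closedBall (0 : ℂ) r₀, ‖G w‖ ≤ M) (N : ℕ) :
    ∃ c : ℕ → ℂ, (∀ j, ‖c j‖ ≤ M / r₀ ^ j) ∧
      (fun w => G w - ∑ j ∈ range N, c j * w ^ j) =O[𝓝 0] fun w => w ^ N := by
  refine ⟨fun j => iteratedDeriv j G 0 / j.factorial, fun j => ?_, ?_⟩
  · have h1 := Complex.norm_iteratedDeriv_le_of_forall_mem_sphere_norm_le (f := G) (c := 0) j hr
      (DifferentiableOn.diffContOnCl (by rwa [closure_ball _ hr.ne'])) (C := M)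
      fun z hz => hM z (Metric.sphere_subset_closedBall hz)
    rw [norm_div, Complex.norm_natCast]
    have h5 : (0 : ℝ) < (j.factorial : ℝ) := by exact_mod_cast j.factorial_pos
    rw [div_le_iff₀ h5]
    refine h1.trans (le_of_eq ?_)
    ring
  · have ha : AnalyticAt ℂ G 0 :=
      (hG.mono Metric.ball_subset_closedBall).analyticAt (Metric.ball_mem_nhds 0 hr)
    have h1 := ha.hasFPowerSeriesAt.isBigO_sub_partialSum_pow N
    have h2 : (fun y : ℂ => ‖y‖ ^ N) =O[𝓝 0] fun y : ℂ => y ^ N := by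
      refine IsBigO.of_norm_left ?_
      refine (isBigO_refl (fun y : ℂ => y ^ N) (𝓝 0)).norm_left.congr_left fun y => ?_
      simp
    refine (h1.trans h2).congr_left fun w => ?_
    rw [zero_add, FormalMultilinearSeries.partialSum]
    congr 1
    refine Finset.sum_congr rfl fun j _ => ?_
    rw [FormalMultilinearSeries.ofScalars_apply_eq, smul_eq_mul]

section

variable {F : Type} [Field F] [Fintype F] [DecidableEq F] {r : ℕ}

/-- the trivial bound -/
lemma T_triv (hF : ringChar F ≠ 2) (f : F[X]) {j : ℕ} (hj : 1 ≤ j) :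
    ‖(T f j : ℂ)‖ ≤ 1 * (Fintype.card F : ℝ) ^ j := by
  classical
  obtain ⟨E, i1, i2, i3, hE⟩ := Pool.Agent.H126T.exists_ext (k := F) j (by omega)
  letI := Fintype.ofFinite E
  have hfr : Module.finrank F E = j := by
    have h1 : Nat.card E = Nat.card F ^ Module.finrank F E := by
      rw [Nat.card_eq_fintype_card, Nat.card_eq_fintype_card, Module.card_eq_pow_finrank (K := F)]
    rw [hE] at h1
    have h2 : 1 < Nat.card F := by
      rw [Nat.card_eq_fintype_card]
      exact Fintype.one_lt_card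
    exact (Nat.pow_right_injective h2 h1).symm
  have h1 := T_eq_sum (F := F) (E := E) hF f
  rw [hfr] at h1
  rw [h1, Complex.norm_intCast, one_mul]
  have h2 : |((∑ x : E, quadraticChar E (aeval x f) : ℤ) : ℝ)| ≤ ∑ x : E, (1 : ℝ) := by
    push_cast
    refine (Finset.abs_sum_le_sum_abs _ _).trans (Finset.sum_le_sum fun x _ => ?_)
    by_cases h : aeval x f = 0
    · rw [h, MulChar.map_zero]
      simp
    · rcases quadraticChar_dichotomy h with h | h <;> simp [h]
  refine h2.trans (le_of_eq ?_)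
  rw [Finset.sum_const, Finset.card_univ, nsmul_eq_mul, mul_one, ← Nat.card_eq_fintype_card, hE,
    Nat.card_eq_fintype_card]
  push_cast
  rfl

/-- being a constant multiple of a square -/
def IsSq (f : F[X]) : Prop := ∃ (c : F) (h : F[X]), f = C c * h ^ 2

lemma T_nonsq (hF : ringChar F ≠ 2) {f : F[X]} (hf : f.Monic) (hd : 1 ≤ f.natDegree)
    (hns : ¬ IsSq f) {j : ℕ} (hj : 1 ≤ j) :
    ‖(T f j : ℂ)‖ ≤ (5 * f.natDegree : ℝ) * (√(Fintype.card F)) ^ j := by
  rw [Complex.norm_intCast]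
  exact (T_bound hF hf hd (fun c h he => hns ⟨c, h, he⟩) j hj).1

/-- bounds for the Euler factors, general form -/
lemma EF_bnd {f : F[X]} {C s : ℝ} (hC : 0 ≤ C) (hs : 0 ≤ s)
    (hT : ∀ j, 1 ≤ j → ‖(T f j : ℂ)‖ ≤ C * s ^ j) {u : ℂ} {ρ : ℝ}
    (hu : s * ‖u‖ ≤ ρ) (hρ : ρ < 1) :
    (Real.exp (C / (1 - ρ)))⁻¹ ≤ ‖EF f u‖ ∧ ‖EF f u‖ ≤ Real.exp (C / (1 - ρ)) := by
  have hρ1 : 0 < 1 - ρ := by linarith
  have h1 : ‖LS (fun m => -(T f m : ℂ)) u‖ ≤ C / (1 - ρ) := by
    have h2 := LS_norm (t := fun m => -(T f m : ℂ)) (C := C) (s := s) hs hC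
      (fun m hm => by rw [norm_neg]; exact hT m hm) hu hρ
    refine h2.trans ?_
    apply div_le_div_of_nonneg_right _ hρ1.le
    have h3 : s * ‖u‖ ≤ 1 := by linarith
    have h4 : 0 ≤ s * ‖u‖ := by positivity
    nlinarith
  have h2 := Complex.abs_re_le_norm (LS (fun m => -(T f m : ℂ)) u)
  rw [abs_le] at h2
  unfold EF
  rw [Complex.norm_exp, ← Real.exp_neg]
  constructor
  · apply Real.exp_le_exp.2
    linarith [h2.1]
  · apply Real.exp_le_exp.2
    linarith [h2.2]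

lemma EF_dif {f : F[X]} {C s : ℝ} (hC : 0 ≤ C) (hs : 0 < s)
    (hT : ∀ j, 1 ≤ j → ‖(T f j : ℂ)‖ ≤ C * s ^ j) {u : ℂ} (hu : s * ‖u‖ < 1) :
    DifferentiableAt ℂ (EF f) u := by
  have h2 := LS_diff (t := fun m => -(T f m : ℂ)) (C := C) (s := s) hs hC
      (fun m hm => by rw [norm_neg]; exact hT m hm) hu
  exact h2.cexp

lemma EF_sub {f : F[X]} {C s : ℝ} (hC : 0 ≤ C) (hs : 0 ≤ s)
    (hT : ∀ j, 1 ≤ j → ‖(T f j : ℂ)‖ ≤ C * s ^ j) {u : ℂ} {κ ρ : ℝ}
    (hu : s * ‖u‖ ≤ κ) (hκρ : κ ≤ ρ) (hρ : ρ < 1) :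
    ‖EF f u - 1‖ ≤ C / (1 - ρ) * Real.exp (C / (1 - ρ)) * κ := by
  have hρ1 : 0 < 1 - ρ := by linarith
  have h0 : 0 ≤ s * ‖u‖ := by positivity
  have hκ0 : 0 ≤ κ := h0.trans hu
  have h2 := LS_norm (t := fun m => -(T f m : ℂ)) (C := C) (s := s) hs hC
      (fun m hm => by rw [norm_neg]; exact hT m hm) (hu.trans hκρ) hρ
  have h1 : ‖LS (fun m => -(T f m : ℂ)) u‖ ≤ C / (1 - ρ) * κ := by
    refine h2.trans ?_
    rw [div_mul_eq_mul_div]
    apply div_le_div_of_nonneg_right _ hρ1.le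
    nlinarith
  have h3 : ‖LS (fun m => -(T f m : ℂ)) u‖ ≤ C / (1 - ρ) := by
    refine h1.trans ?_
    have : 0 ≤ C / (1 - ρ) := by positivity
    nlinarith
  unfold EF
  have h4 : ‖Complex.exp (LS (fun m => -(T f m : ℂ)) u) - 1‖ ≤
      Real.exp ‖LS (fun m => -(T f m : ℂ)) u‖ - 1 := by
    have := Complex.norm_exp_sub_sum_le_exp_norm_sub_sum (LS (fun m => -(T f m : ℂ)) u) 1
    simpa using this
  refine h4.trans ((exp_sub_one_le (norm_nonneg _) h3).trans ?_)
  calc ‖LS (fun m => -(T f m : ℂ)) u‖ * Real.exp (C / (1 - ρ)) ≤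
      (C / (1 - ρ) * κ) * Real.exp (C / (1 - ρ)) := by gcongr
    _ = _ := by ring

/-- the comparison with the model, for all degrees -/
theorem FH_bigO' (hF : ringChar F ≠ 2) (n : Fin r → ℤ) {m : ℕ} (t : Fin r → ℂ) :
    (fun w => FH F n m t w - XiR (F := F) n m t w) =O[𝓝 0] fun w => w ^ (m + 1) := by
  classical
  have hq1 : (1 : ℝ) ≤ (Fintype.card F : ℝ) := by exact_mod_cast Fintype.card_pos
  have h1 : (fun w => fmean (fun a : Fin m → F => ∏ k, EF (mkP m a) (w * t k) ^ n k) -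
      fmean (fun a : Fin m → F => ∏ P ∈ Irr F m, gP n (lam (mkP m a) P) (xP t P.natDegree w)))
      =O[𝓝 0] fun w => w ^ (m + 1) := by
    have h2 : (fun w => ∑ a : Fin m → F, (∏ k, EF (mkP m a) (w * t k) ^ n k -
        ∏ P ∈ Irr F m, gP n (lam (mkP m a) P) (xP t P.natDegree w))) =O[𝓝 0]
        fun w => w ^ (m + 1) := by
      refine IsBigO.fun_sum fun a _ => ?_
      exact (prod_eqv n (mkP m a) (C := 1) (s := (Fintype.card F : ℝ)) zero_le_one
        hq1 (fun j hj => T_triv hF (mkP m a) hj) m t).2.2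
    have h3 := h2.const_mul_left ((Fintype.card (Fin m → F) : ℂ)⁻¹)
    refine h3.congr_left fun w => ?_
    rw [fmean_eq, fmean_eq, Finset.sum_sub_distrib]
    ring
  have h2 := mean_bigO hF n m t
  have h3 : (fun w => fmean (fun a : Fin m → F => ∏ k, EF (mkP m a) (w * t k) ^ n k) -
      Xi (F := F) n m t w) =O[𝓝 0] fun w => w ^ (m + 1) := by
    refine (h1.add h2).congr_left fun w => ?_
    ring
  have h4 := zeta_eqv hF n m t
  have h5 : Tendsto (fun w => Xi (F := F) n m t w) (𝓝 0) (𝓝 1) := by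
    unfold Xi
    have h6 : ∀ P ∈ Irr F m, Tendsto (fun w => (1 / (Fintype.card F : ℂ) ^ P.natDegree +
        (1 - 1 / (Fintype.card F : ℂ) ^ P.natDegree) * SP n (xP t P.natDegree w))) (𝓝 0)
        (𝓝 1) := by
      intro P hP
      have h7 := SP_tendsto n t (d := P.natDegree) (mem_Irr.1 hP).2.1.natDegree_pos
      have h8 := (h7.const_mul (1 - 1 / (Fintype.card F : ℂ) ^ P.natDegree)).const_add
        (1 / (Fintype.card F : ℂ) ^ P.natDegree)
      have h9 : 1 / (Fintype.card F : ℂ) ^ P.natDegree +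
        (1 - 1 / (Fintype.card F : ℂ) ^ P.natDegree) * 1 = 1 := by ring
      rw [h9] at h8
      exact h8
    have h7 := tendsto_finsetProd (Irr F m) h6
    rw [Finset.prod_const_one] at h7
    exact h7
  have h6 := h3.mul (h4.1.isBigO_one ℂ)
  have h7 := h4.2.2.mul (h5.isBigO_one ℂ)
  simp only [mul_one] at h6 h7
  refine (h6.add h7).congr_left fun w => ?_
  unfold FH XiR
  rw [Finset.prod_mul_distrib]
  unfold Xi
  ring

/-! ### the number of squares -/

lemma sq_monic {f : F[X]} (hf : f.Monic) (h : IsSq f) : ∃ g : F[X], g.Monic ∧ f = g ^ 2 := by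
  obtain ⟨c, h, he⟩ := h
  have hh0 : h ≠ 0 := by
    rintro rfl
    rw [he] at hf
    simp at hf
  have hl : h.leadingCoeff ≠ 0 := leadingCoeff_ne_zero.2 hh0
  have hc : c * h.leadingCoeff ^ 2 = 1 := by
    have h1 := hf.leadingCoeff
    rw [he, leadingCoeff_mul, leadingCoeff_C, leadingCoeff_pow] at h1
    exact h1
  refine ⟨h * C h.leadingCoeff⁻¹, monic_mul_leadingCoeff_inv hh0, ?_⟩
  have h2 : C c = (C h.leadingCoeff⁻¹ : F[X]) ^ 2 := by
    rw [← C_pow]
    congr 1
    field_simp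
    exact hc
  rw [he, h2]
  ring

open Classical in
lemma card_sq {m : ℕ} : (Finset.univ.filter fun a : Fin (2 * m) → F => IsSq (mkP (2 * m) a)).card ≤
    Fintype.card F ^ m := by
  rw [← card_Mon]
  have h1 : (Finset.univ.filter fun a : Fin (2 * m) → F => IsSq (mkP (2 * m) a)).image
      (mkP (2 * m)) ⊆ (Mon F m).image (fun g => g ^ 2) := by
    intro f hf
    rw [Finset.mem_image] at hf
    obtain ⟨a, ha, rfl⟩ := hf
    obtain ⟨g, hg, he⟩ := sq_monic (mkP_monic _ _) (Finset.mem_filter.1 ha).2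
    rw [Finset.mem_image]
    refine ⟨g, mem_Mon.2 ⟨hg, ?_⟩, he.symm⟩
    have h2 := congrArg natDegree he
    rw [mkP_natDegree, natDegree_pow] at h2
    omega
  have h2 := (Finset.card_le_card h1).trans Finset.card_image_le
  rwa [Finset.card_image_of_injective _ (mkP_inj _)] at h2

end

end Pool.Agent.T6.H9.HE
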