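import Pool.Agent.T6.H9.HE.Tay

/-!
# Estimates for the model

Owner helper9.
-/

set_option autoImplicit false
set_option linter.unusedSectionVars false
set_option linter.style.haveILetI false
set_option linter.unusedVariables false

open Filter Topology Asymptotics Finset Polynomial

namespace Pool.Agent.T6.H9.HE

open Pool.Agent.T6.H9.MV Pool.Agent.T6.H9.HY Pool.Agent.H341R2.Sharp

theorem Xi_est {r : ℕ} (n : Fin r → ℤ) (m : ℕ) :
    ∃ C₀ : ℝ, 0 ≤ C₀ ∧ ∀ (F : Type) [Field F] [Fintype F] [DecidableEq F], ringChar F ≠ 2 →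
      ∀ t : Fin r → ℂ, ∀ (w : ℂ) (y : ℝ), 0 < y → y ^ 2 ≤ 1 →
        (∀ k, √(Fintype.card F : ℝ) * ‖w * t k‖ ≤ y) →
        ‖XiR (F := F) n m t w - 1‖ ≤
          Real.exp (3 * C₀ * (y ^ 2 / (Fintype.card F : ℝ))) - 1 := by
  obtain ⟨C₀, hC₀, hest⟩ := est_P n (c₀ := 3 / 5) (c₁ := 4 / 5) (by norm_num) (by norm_num)
    (by norm_num)
  refine ⟨C₀, hC₀, ?_⟩
  intro F _ _ _ hF t w y hy hy1 hwy
  set q : ℝ := (Fintype.card F : ℝ) with hq
  have hq3 : (3 : ℝ) ≤ q := by
    rw [hq]
    exact_mod_cast three_le hF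
  have hq0 : 0 < q := by linarith
  have hsq0 : 0 < √q := Real.sqrt_pos.2 hq0
  have hqc : ((Fintype.card F : ℕ) : ℂ) = ((q : ℝ) : ℂ) := by rw [hq]; push_cast; rfl
  have hy1' : y ≤ 1 := by nlinarith
  set b : ℝ := y / √q with hb
  have hb0 : 0 < b := by positivity
  have hb2 : b ^ 2 = y ^ 2 / q := by rw [hb, div_pow, Real.sq_sqrt hq0.le]
  have hb35 : b ≤ 3 / 5 := by
    have h1 : b ^ 2 ≤ 1 / 3 := by
      rw [hb2]
      calc y ^ 2 / q ≤ 1 / q := by gcongr
        _ ≤ 1 / 3 := by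
          apply one_div_le_one_div_of_le (by norm_num) hq3
    nlinarith
  have hb1 : b ≤ 1 := by linarith
  have hkb : ∀ k, ‖w * t k‖ ≤ b := by
    intro k
    rw [hb, le_div_iff₀ hsq0, mul_comm]
    exact hwy k
  -- pointwise
  have hpt : ∀ P ∈ Irr F m, ‖(1 / (Fintype.card F : ℂ) ^ P.natDegree +
      (1 - 1 / (Fintype.card F : ℂ) ^ P.natDegree) * SP n (xP t P.natDegree w)) *
      RP n (xP t P.natDegree w) - 1‖ ≤
      C₀ * (1 / q ^ P.natDegree * (b ^ P.natDegree) ^ 2 + (b ^ P.natDegree) ^ 4) := by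
    intro P hP
    have hd : 1 ≤ P.natDegree := (mem_Irr.1 hP).2.1.natDegree_pos
    have h1 := hest (xP t P.natDegree w) (b ^ P.natDegree) (by positivity) (by
      calc b ^ P.natDegree ≤ b := pow_le_of_le_one hb0.le hb1 (by omega)
        _ ≤ 3 / 5 := hb35) (fun k => by
        unfold xP
        rw [norm_pow]
        exact pow_le_pow_left₀ (norm_nonneg _) (hkb k) _) (1 / q ^ P.natDegree) (by positivity)
        (by
          rw [div_le_one (by positivity)]
          exact one_le_pow₀ (by linarith))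
    have h2 : (((1 / q ^ P.natDegree : ℝ)) : ℂ) = 1 / (Fintype.card F : ℂ) ^ P.natDegree := by
      push_cast
      rw [hqc]
    rw [h2] at h1
    exact h1
  have hsum : ∑ P ∈ Irr F m, C₀ * (1 / q ^ P.natDegree * (b ^ P.natDegree) ^ 2 +
      (b ^ P.natDegree) ^ 4) ≤ 3 * C₀ * (y ^ 2 / q) := by
    have h1 := sum_Irr_le (F := F) m (h := fun d => C₀ * (1 / q ^ d * (b ^ d) ^ 2 + (b ^ d) ^ 4))
      (fun d => by positivity)
    refine h1.trans ?_
    set z : ℝ := y ^ 2 / q with hz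
    have hz0 : 0 < z := by positivity
    have hz3 : z ≤ 1 / 3 := by
      calc y ^ 2 / q ≤ 1 / q := by gcongr
        _ ≤ 1 / 3 := one_div_le_one_div_of_le (by norm_num) hq3
    have h2 : ∀ d ∈ Icc 1 m, (Fintype.card F : ℝ) ^ d *
        (C₀ * (1 / q ^ d * (b ^ d) ^ 2 + (b ^ d) ^ 4)) ≤ 2 * C₀ * z ^ d := by
      intro d _
      rw [← hq]
      have e1 : (b ^ d) ^ 2 = z ^ d := by
        rw [← pow_mul, mul_comm d 2, pow_mul, hb2]
      have e2 : (b ^ d) ^ 4 = z ^ d * z ^ d := by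
        have : (b ^ d) ^ 4 = (b ^ d) ^ 2 * (b ^ d) ^ 2 := by ring
        rw [this, e1]
      rw [e1, e2]
      have e3 : q ^ d * (C₀ * (1 / q ^ d * z ^ d + z ^ d * z ^ d)) =
          C₀ * z ^ d * (1 + (q * z) ^ d) := by
        rw [mul_pow]
        field_simp
      rw [e3]
      have e4 : (q * z) ^ d ≤ 1 := by
        apply pow_le_one₀ (by positivity)
        rw [hz]
        have : q * (y ^ 2 / q) = y ^ 2 := by field_simp
        rw [this]
        exact hy1
      have e5 : 0 ≤ C₀ * z ^ d := by positivity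
      nlinarith
    refine (Finset.sum_le_sum h2).trans ?_
    rw [← Finset.mul_sum]
    have h3 : ∑ d ∈ Icc 1 m, z ^ d ≤ 3 / 2 * z := by
      have h4 : ∑ d ∈ Icc 1 m, z ^ d ≤ z / (1 - z) := by
        have h5 : HasSum (fun d : ℕ => z ^ (d + 1)) (z / (1 - z)) := by
          have := (hasSum_geometric_of_lt_one hz0.le (by linarith : z < 1)).mul_left z
          rw [← div_eq_mul_inv] at this
          refine this.congr_fun fun d => ?_
          rw [pow_succ]
          ring
        have h6 : ∑ d ∈ Icc 1 m, z ^ d = ∑ d ∈ range m, z ^ (d + 1) := by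
          rw [Finset.range_eq_Ico, Finset.sum_Ico_add' (fun d => z ^ d) 0 m 1]
          refine Finset.sum_congr ?_ fun _ _ => rfl
          ext d
          simp only [Finset.mem_Icc, Finset.mem_Ico]
          omega
        rw [h6, ← h5.tsum_eq]
        exact h5.summable.sum_le_tsum _ fun _ _ => by positivity
      refine h4.trans ?_
      rw [div_le_iff₀ (by linarith)]
      nlinarith
    calc 2 * C₀ * ∑ d ∈ Icc 1 m, z ^ d ≤ 2 * C₀ * (3 / 2 * z) := by gcongr
      _ = 3 * C₀ * z := by ring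
  unfold XiR
  have h1 := Finset.norm_prod_one_add_sub_one_le (Irr F m) (fun P =>
    (1 / (Fintype.card F : ℂ) ^ P.natDegree +
      (1 - 1 / (Fintype.card F : ℂ) ^ P.natDegree) * SP n (xP t P.natDegree w)) *
      RP n (xP t P.natDegree w) - 1)
  simp only [add_sub_cancel] at h1
  refine h1.trans ?_
  have h2 := (Finset.sum_le_sum hpt).trans hsum
  have := Real.exp_le_exp.2 h2
  linarith

section

variable {F : Type} [Field F] [Fintype F] [DecidableEq F] {r : ℕ}

lemma Xi_diff (hF : ringChar F ≠ 2) (n : Fin r → ℤ) (m : ℕ) (t : Fin r → ℂ) {w : ℂ}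
    (hw : ∀ k, √(Fintype.card F : ℝ) * ‖w * t k‖ ≤ 1) :
    DifferentiableAt ℂ (fun w => XiR (F := F) n m t w) w := by
  have hq3 : (3 : ℝ) ≤ (Fintype.card F : ℝ) := by exact_mod_cast three_le hF
  unfold XiR
  refine DifferentiableAt.fun_finsetProd fun P hP => ?_
  have hd : 1 ≤ P.natDegree := (mem_Irr.1 hP).2.1.natDegree_pos
  have hx : ∀ k, ‖xP t P.natDegree w k‖ ≤ 3 / 5 := by
    intro k
    unfold xP
    rw [norm_pow]
    have h4 : ‖w * t k‖ ≤ 3 / 5 := by
      have h5 := hw k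
      have h6 : (5 : ℝ) / 3 ≤ √(Fintype.card F : ℝ) := by
        apply Real.le_sqrt_of_sq_le
        norm_num
        linarith
      have h7 : 0 ≤ ‖w * t k‖ := norm_nonneg _
      nlinarith
    calc ‖w * t k‖ ^ P.natDegree ≤ ‖w * t k‖ :=
          pow_le_of_le_one (norm_nonneg _) (h4.trans (by norm_num)) (by omega)
      _ ≤ 3 / 5 := h4
  have hg : ∀ σ : ℂ, ‖σ‖ ≤ 1 → DifferentiableAt ℂ
      (fun w => gP n σ (xP t P.natDegree w)) w := by
    intro σ hσ
    unfold gP xP
    refine DifferentiableAt.fun_finsetProd fun k _ => ?_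
    have h3 : DifferentiableAt ℂ (fun w : ℂ => 1 - σ * (w * t k) ^ P.natDegree) w := by
      fun_prop
    refine h3.zpow (Or.inl (ne_zero_of_bounds (c := 3 / 5)
      (lin_bounds (by norm_num) ?_).1))
    rw [norm_mul]
    calc ‖σ‖ * ‖(w * t k) ^ P.natDegree‖ ≤ 1 * ‖(w * t k) ^ P.natDegree‖ := by gcongr
      _ ≤ 3 / 5 := by rw [one_mul]; exact hx k
  have hS : DifferentiableAt ℂ (fun w => SP n (xP t P.natDegree w)) w := by
    unfold SP
    exact ((hg 1 (by simp)).add (hg (-1) (by simp))).div_const 2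
  have hRd : DifferentiableAt ℂ (fun w => RP n (xP t P.natDegree w)) w := by
    unfold RP xP
    refine DifferentiableAt.fun_finsetProd fun p _ => ?_
    have h3 : DifferentiableAt ℂ (fun w : ℂ =>
        1 - (w * t p.1) ^ P.natDegree * (w * t p.2) ^ P.natDegree) w := by
      fun_prop
    exact h3.zpow (Or.inl (ne_zero_of_bounds (c := 3 / 5)
      (lin_bounds (by norm_num) (prod_le_sq (hx p.1) (hx p.2) (by norm_num))).1))
  exact ((hS.const_mul _).const_add _).mul hRd

end

end Pool.Agent.T6.H9.HE
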